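import Pool.Agent.MP_e16607_lc.Defs

set_option autoImplicit false

open Finset

namespace Pool.Agent.MP_e16607_lc

/-- `c` is proper on `S` for the adjacency relation `A`. -/
def Prp (A : ℕ → ℕ → Prop) (S : Finset ℕ) (c : ℕ → ℕ) : Prop :=
  ∀ a ∈ S, ∀ b ∈ S, A a b → c a ≠ c b

/-- `S` can be properly coloured with `j` colours. -/
def Col (A : ℕ → ℕ → Prop) (S : Finset ℕ) (j : ℕ) : Prop :=
  ∃ c : ℕ → ℕ, (∀ a ∈ S, c a < j) ∧ Prp A S c

/-- A certificate for connectedness. -/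
def Conn (A : ℕ → ℕ → Prop) (S : Finset ℕ) : Prop :=
  ∃ r ∈ S, ∃ rk : ℕ → ℕ, ∀ v ∈ S, v ≠ r → ∃ u ∈ S, A u v ∧ rk u < rk v

/-- Numeric form of the statement that the discrepancy is at most `k`. -/
def Low (cn : Bool) (A : ℕ → ℕ → Prop) (n k : ℕ) : Prop :=
  ∃ c : ℕ → ℕ, Prp A (range n) c ∧ ∀ S ⊆ range n, (cn = true → Conn A S) → ∀ j, Col A S j →
    (S.image c).card ≤ j + k

section

variable {n : ℕ} {G : SimpleGraph (Fin n)} {A : ℕ → ℕ → Prop}
  (hA : ∀ i j : Fin n, G.Adj i j ↔ A i j) {S : Set (Fin n)} {S' : Finset ℕ}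
  (hS : ∀ i : Fin n, i ∈ S ↔ (i : ℕ) ∈ S') (hS' : S' ⊆ range n)
include hA hS hS'

lemma colorable_iff_col (j : ℕ) : (G.induce S).Colorable j ↔ Col A S' j := by
  classical
  rw [SimpleGraph.colorable_iff_exists_bdd_nat_coloring]
  constructor
  · rintro ⟨C, hC⟩
    refine ⟨fun a => if h : a ∈ S' then C ⟨⟨a, mem_range.1 (hS' h)⟩, (hS _).2 h⟩ else 0,
      fun a ha => ?_, fun a ha b hb hab => ?_⟩
    · simp only [dif_pos ha]; exact hC _
    · simp only [dif_pos ha, dif_pos hb]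
      exact C.valid (by simpa using (hA _ _).2 hab)
  · rintro ⟨c, h1, h2⟩
    refine ⟨SimpleGraph.Coloring.mk (fun v => c v.1) fun {v w} h => ?_, fun v => ?_⟩
    · exact h2 _ ((hS _).1 v.2) _ ((hS _).1 w.2) ((hA _ _).1 (by simpa using h))
    · exact h1 _ ((hS _).1 v.2)

lemma connected_iff_conn : (G.induce S).Connected ↔ Conn A S' := by
  classical
  constructor
  · intro hc
    obtain ⟨r⟩ := hc.nonempty
    refine ⟨r.1, (hS _).1 r.2, fun a => if h : a ∈ S' then
      (G.induce S).dist ⟨⟨a, mem_range.1 (hS' h)⟩, (hS _).2 h⟩ r else 0, fun v hv hne => ?_⟩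
    set v' : S := ⟨⟨v, mem_range.1 (hS' hv)⟩, (hS _).2 hv⟩ with hv'
    obtain ⟨p, hp⟩ := hc.exists_walk_length_eq_dist v' r
    have hne' : v' ≠ r := fun h => hne (by rw [← h])
    obtain ⟨u, hadj, q, rfl⟩ := SimpleGraph.Walk.exists_eq_cons_of_ne hne' p
    have hu : (u.1 : ℕ) ∈ S' := (hS _).1 u.2
    refine ⟨u.1, hu, (hA u.1 v'.1).1 (by simpa using hadj.symm), ?_⟩
    simp only [dif_pos hu, dif_pos hv]
    have := SimpleGraph.dist_le q
    rw [SimpleGraph.Walk.length_cons] at hp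
    change (G.induce S).dist u r < (G.induce S).dist v' r
    omega
  · rintro ⟨r, hr, rk, h⟩
    let r' : S := ⟨⟨r, mem_range.1 (hS' hr)⟩, (hS _).2 hr⟩
    have key : ∀ (m : ℕ) (v : S), rk v.1 = m → (G.induce S).Reachable r' v := by
      intro m
      induction m using Nat.strong_induction_on with
      | _ m ih =>
        intro v hv
        by_cases hvr : (v.1 : ℕ) = r
        · have : v = r' := Subtype.ext (Fin.ext hvr)
          rw [this]
        · obtain ⟨u, hu, hadj, hlt⟩ := h _ ((hS _).1 v.2) hvr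
          let u' : S := ⟨⟨u, mem_range.1 (hS' hu)⟩, (hS _).2 hu⟩
          have h1 := ih (rk u) (hv ▸ hlt) u' rfl
          have h2 : (G.induce S).Adj u' v := by simpa using (hA u'.1 v.1).2 hadj
          exact h1.trans h2.reachable
    have : Nonempty S := ⟨r'⟩
    exact ⟨fun u v => (key _ u rfl).symm.trans (key _ v rfl)⟩

omit hA in
lemma encard_image_eq {c : Fin n → ℕ} {c' : ℕ → ℕ} (hc : ∀ i : Fin n, c i = c' i) :
    (c '' S).encard = (S'.image c').card := by
  rw [← Set.encard_coe_eq_coe_finsetCard]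
  congr 1
  ext x
  simp only [Set.mem_image, coe_image, mem_coe]
  constructor
  · rintro ⟨i, hi, rfl⟩
    exact ⟨i, (hS i).1 hi, (hc i).symm⟩
  · rintro ⟨a, ha, rfl⟩
    exact ⟨⟨a, mem_range.1 (hS' ha)⟩, (hS _).2 ha, hc _⟩

end

lemma sub_chrom_le_iff {V : Type} [Finite V] (H : SimpleGraph V) (m k : ℕ) :
    (m : ℕ∞) - H.chromaticNumber ≤ k ↔ ∀ j, H.Colorable j → m ≤ j + k := by
  rw [tsub_le_iff_left]
  have h1 := H.colorable_chromaticNumber_of_fintype
  have h2 : H.chromaticNumber ≠ ⊤ := SimpleGraph.chromaticNumber_ne_top_iff_exists.2 ⟨_, h1⟩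
  constructor
  · intro h j hj
    have := h.trans (add_le_add_left hj.chromaticNumber_le _)
    exact_mod_cast this
  · intro h
    have := h _ h1
    rw [← ENat.natCast_toNat h2]
    exact_mod_cast this

lemma discP_le_iff {n : ℕ} {G : SimpleGraph (Fin n)} {A : ℕ → ℕ → Prop}
    (hA : ∀ i j : Fin n, G.Adj i j ↔ A i j) (cn : Bool) (k : ℕ) :
    (⨅ c : G.Coloring ℕ, ⨆ (S : Set (Fin n)) (_ : cn = true → (G.induce S).Connected),
      (c '' S).encard - (G.induce S).chromaticNumber) ≤ k ↔ Low cn A n k := by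
  classical
  rw [← ENat.lt_add_one_iff (ENat.natCast_ne_top k), iInf_lt_iff]
  simp only [ENat.lt_add_one_iff (ENat.natCast_ne_top k), iSup_le_iff]
  constructor
  · rintro ⟨c, hc⟩
    let c' : ℕ → ℕ := fun a => if h : a < n then c ⟨a, h⟩ else 0
    have hcc : ∀ i : Fin n, c i = c' i := fun i => by simp [c']
    refine ⟨c', fun a ha b hb hab => ?_, fun S' hS' hcn j hj => ?_⟩
    · simp only [c', dif_pos (mem_range.1 ha), dif_pos (mem_range.1 hb)]
      exact c.valid ((hA _ _).2 hab)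
    · have hS : ∀ i : Fin n, i ∈ {i : Fin n | (i : ℕ) ∈ S'} ↔ (i : ℕ) ∈ S' := fun _ => Iff.rfl
      have := hc _ fun h => (connected_iff_conn hA hS hS').2 (hcn h)
      rw [encard_image_eq hS hS' hcc, sub_chrom_le_iff] at this
      exact this j ((colorable_iff_col hA hS hS' j).2 hj)
  · rintro ⟨c', h1, h2⟩
    refine ⟨SimpleGraph.Coloring.mk (fun v => c' v) fun {v w} h => ?_, fun S hcn => ?_⟩
    · exact h1 _ (mem_range.2 v.2) _ (mem_range.2 w.2) ((hA _ _).1 h)
    · let S' : Finset ℕ := (univ.filter (· ∈ S)).image Fin.val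
      have hS : ∀ i : Fin n, i ∈ S ↔ (i : ℕ) ∈ S' := fun i => by
        simp [S', Fin.val_inj]
      have hS' : S' ⊆ range n := fun a ha => by
        obtain ⟨i, -, rfl⟩ := mem_image.1 ha
        exact mem_range.2 i.2
      change ((fun v : Fin n => c' v) '' S).encard - _ ≤ _
      rw [encard_image_eq hS hS' (c' := c') (fun _ => rfl), sub_chrom_le_iff]
      exact fun j hj => h2 S' hS' (fun h => (connected_iff_conn hA hS hS').1 (hcn h)) j
        ((colorable_iff_col hA hS hS' j).1 hj)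

lemma disc_le_iff {n : ℕ} {G : SimpleGraph (Fin n)} {A : ℕ → ℕ → Prop}
    (hA : ∀ i j : Fin n, G.Adj i j ↔ A i j) (k : ℕ) : disc G ≤ k ↔ Low false A n k := by
  rw [← discP_le_iff hA]
  simp [disc]

lemma cdisc_le_iff {n : ℕ} {G : SimpleGraph (Fin n)} {A : ℕ → ℕ → Prop}
    (hA : ∀ i j : Fin n, G.Adj i j ↔ A i j) (k : ℕ) : cdisc G ≤ k ↔ Low true A n k := by
  rw [← discP_le_iff hA]
  simp [cdisc]

/-- Rank of a value among a finite set of values. -/
def rank (U : Finset ℕ) (x : ℕ) : ℕ := (U.filter (· < x)).card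

lemma rank_lt_card {U : Finset ℕ} {x : ℕ} (hx : x ∈ U) : rank U x < U.card :=
  card_lt_card ⟨filter_subset _ _, fun h => by simpa using h hx⟩

lemma rank_lt_rank {U : Finset ℕ} {x y : ℕ} (hx : x ∈ U) (h : x < y) : rank U x < rank U y := by
  refine card_lt_card ⟨fun z hz => ?_, fun hh => ?_⟩
  · simp only [mem_filter] at hz ⊢
    exact ⟨hz.1, hz.2.trans h⟩
  · have := hh (mem_filter.2 ⟨hx, h⟩)
    simp at this

lemma rank_injOn (U : Finset ℕ) : Set.InjOn (rank U) U := by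
  intro x hx y hy h
  rcases lt_trichotomy x y with h1 | h1 | h1
  · exact absurd h (rank_lt_rank hx h1).ne
  · exact h1
  · exact absurd h (rank_lt_rank hy h1).ne'

lemma col_of_card {A : ℕ → ℕ → Prop} {S : Finset ℕ} {c : ℕ → ℕ} (hc : Prp A S c) {m : ℕ}
    (h : (S.image c).card ≤ m) : Col A S m :=
  ⟨fun a => rank (S.image c) (c a),
    fun _ ha => (rank_lt_card (mem_image_of_mem c ha)).trans_le h,
    fun a ha b hb hab h => hc a ha b hb hab
      (rank_injOn _ (mem_image_of_mem c ha) (mem_image_of_mem c hb) h)⟩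

end Pool.Agent.MP_e16607_lc
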