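import Mathlib
import Pool.Prelude.Def_H_3587d628

set_option autoImplicit false

namespace Pool.Agent.MP_e16607_lc

/-- Chromatic discrepancy: the minimum over proper colourings `c` of the maximum over vertex
sets `S` of (number of colours on `S`) minus (chromatic number of the graph induced on `S`). -/
noncomputable def disc {V : Type} (G : SimpleGraph V) : ℕ∞ :=
  ⨅ c : G.Coloring ℕ, ⨆ S : Set V, (c '' S).encard - (G.induce S).chromaticNumber

/-- The same with connected induced subgraphs only. -/
noncomputable def cdisc {V : Type} (G : SimpleGraph V) : ℕ∞ :=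
  ⨅ c : G.Coloring ℕ, ⨆ (S : Set V) (_ : (G.induce S).Connected),
    (c '' S).encard - (G.induce S).chromaticNumber

open Classical in
/-- Bit string coding the adjacency matrix of `G` and the number `k` in binary. -/
noncomputable def code {n : ℕ} (G : SimpleGraph (Fin n)) (k : ℕ) : List Bool :=
  N487b59b3.bitEncode ((List.ofFn fun i => List.ofFn fun j => decide (G.Adj i j)), k)

open Classical in
/-- The language `L₁`. -/
noncomputable def langDisc (x : List Bool) : Bool :=
  decide (∃ (n : ℕ) (G : SimpleGraph (Fin n)) (k : ℕ), x = code G k ∧ disc G ≤ k)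

open Classical in
/-- The language `L₂`. -/
noncomputable def langCdisc (x : List Bool) : Bool :=
  decide (∃ (n : ℕ) (G : SimpleGraph (Fin n)) (k : ℕ), x = code G k ∧ cdisc G ≤ k)

end Pool.Agent.MP_e16607_lc
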