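import Pool.Agent.MP_e16607_lc.Lang

set_option autoImplicit false

open Pool.Agent.MP_2e8011_lc Computability

namespace Pool.Agent.MP_e16607_lc

instance (φ : CNF) (n a b : ℕ) : Decidable (BF φ n a b) := by unfold BF; infer_instance

instance (φ : CNF) (n a b : ℕ) : Decidable (AF φ n a b) := by unfold AF; infer_instance

instance (φ : CNF) (n N a b : ℕ) : Decidable (AG (AF φ n) N a b) := by unfold AG; infer_instance

/-- The reduction from unsatisfiability. -/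
def red (φ : CNF) : List Bool :=
  delim (enc (mat ((2 * (3 * (sz φ + 1) + 1 + φ.length) + 1) * (3 * (sz φ + 1) + 1 + φ.length) + 1)
    fun a b => decide (AG (AF φ (sz φ + 1)) (3 * (sz φ + 1) + 1 + φ.length) a b))) ++
  encodeNat (2 * (sz φ + 1) - 1 + φ.length)

section
variable {α : Type} [Enc α]

@[fun_prop] theorem pt_BF {φ : α → CNF} {n a b : α → ℕ}
    {i : ∀ x, Decidable (BF (φ x) (n x) (a x) (b x))} (hφ : PT φ) (hn : PT n) (ha : PT a)
    (hb : PT b) : PT (fun x => @decide (BF (φ x) (n x) (a x) (b x)) (i x)) := by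
  unfold BF
  fun_prop

@[fun_prop] theorem pt_AF {φ : α → CNF} {n a b : α → ℕ}
    {i : ∀ x, Decidable (AF (φ x) (n x) (a x) (b x))} (hφ : PT φ) (hn : PT n) (ha : PT a)
    (hb : PT b) : PT (fun x => @decide (AF (φ x) (n x) (a x) (b x)) (i x)) := by
  unfold AF
  fun_prop

@[fun_prop] theorem pt_AG {φ : α → CNF} {n N a b : α → ℕ}
    {i : ∀ x, Decidable (AG (AF (φ x) (n x)) (N x) (a x) (b x))} (hφ : PT φ) (hn : PT n)
    (hN : PT N) (ha : PT a) (hb : PT b) :
    PT (fun x => @decide (AG (AF (φ x) (n x)) (N x) (a x) (b x)) (i x)) := by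
  unfold AG
  fun_prop

end

theorem pt_red : PT red := by
  refine pt_delim_append (PT.enc ?_) (pt_encodeNat (by fun_prop))
  unfold mat
  fun_prop

lemma AG_symm {A : ℕ → ℕ → Prop} (hA : ∀ a b, A a b ↔ A b a) {N a b : ℕ} (h : AG A N a b) :
    AG A N b a := by
  obtain ⟨h1, h2 | h2 | ⟨h2, h3 | h3⟩⟩ := h
  · exact ⟨h1.symm, Or.inr (Or.inl h2)⟩
  · exact ⟨h1.symm, Or.inl h2⟩
  · exact ⟨h1.symm, Or.inr (Or.inr ⟨h2.symm, Or.inl h3.symm⟩)⟩
  · exact ⟨h1.symm, Or.inr (Or.inr ⟨h2.symm, Or.inr ((hA _ _).1 h3)⟩)⟩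

theorem lang_red (cn : Bool) (φ : CNF) : Lang cn (red φ) ↔ ¬ MP_2e8011_lc.Sat φ := by
  rw [red, lang_code_iff]
  · simp only [decide_eq_true_eq]
    exact low_iff_not_sat (Nat.succ_pos _)
      (fun C hC l hl => (var_lt_sz hC hl).trans (Nat.lt_succ_self _)) cn
  · intro i _ j _
    exact decide_eq_decide.2 ⟨AG_symm (AF_symm φ _), AG_symm (AF_symm φ _)⟩
  · intro i _
    simp [AG]

theorem coNP_hard {cn : Bool} {L : List Bool → Bool} (hL : ∀ x, L x = true ↔ Lang cn x)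
    {A : List Bool → Bool} (hA : A ∈ N68a2faeb.coNP) :
    ∃ f : List Bool → List Bool, PT f ∧ ∀ x, A x = true ↔ L (f x) = true := by
  obtain ⟨g, hg, h⟩ := cookLevin hA
  refine ⟨fun x => red (g x), pt_red.comp hg, fun x => ?_⟩
  rw [hL, lang_red, ← h]
  simp

theorem np_eq_conp_of_mem {cn : Bool} {L : List Bool → Bool} (hL : ∀ x, L x = true ↔ Lang cn x)
    (h : L ∈ N68a2faeb.NP) : N68a2faeb.NP = N68a2faeb.coNP := by
  have key : ∀ A ∈ N68a2faeb.coNP, A ∈ N68a2faeb.NP := fun A hA => by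
    obtain ⟨f, hf, hA⟩ := coNP_hard hL hA
    exact np_of_red h hf hA
  refine Set.Subset.antisymm (fun A hA => key Aᶜ ?_) key
  change Aᶜᶜ ∈ N68a2faeb.NP
  rwa [compl_compl]

end Pool.Agent.MP_e16607_lc
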