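import Pool.Agent.MP_e16607_lc.Char

set_option autoImplicit false

open Finset

namespace Pool.Agent.MP_e16607_lc

/-- Adjacency in the layered graph: `2 N + 1` layers of `N` vertices and a universal vertex. -/
def AG (AF : ℕ → ℕ → Prop) (N a b : ℕ) : Prop :=
  a ≠ b ∧ (a = (2 * N + 1) * N ∨ b = (2 * N + 1) * N ∨
    (a % N ≠ b % N ∧ (a / N ≠ b / N ∨ AF (a % N) (b % N))))

lemma layer_lt {N T t i : ℕ} (ht : t < T) (hi : i < N) : t * N + i < T * N := by
  have := Nat.mul_le_mul_right N (Nat.succ_le_of_lt ht)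
  rw [Nat.succ_mul] at this
  omega

lemma layer_div {N t i : ℕ} (hi : i < N) : (t * N + i) / N = t := by
  rw [add_comm, Nat.add_mul_div_right _ _ (by omega), Nat.div_eq_of_lt hi, zero_add]

lemma layer_mod {N t i : ℕ} (hi : i < N) : (t * N + i) % N = i := by
  rw [add_comm, Nat.add_mul_mod_self_right, Nat.mod_eq_of_lt hi]

/-- The canonical colouring of the layered graph. -/
def canon (N a : ℕ) : ℕ := if a = (2 * N + 1) * N then N else a % N

lemma prp_canon (AF : ℕ → ℕ → Prop) {N : ℕ} (hN : 0 < N) (S : Finset ℕ) :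
    Prp (AG AF N) S (canon N) := by
  rintro a - b - ⟨hab, h⟩
  have h1 := Nat.mod_lt a hN
  have h2 := Nat.mod_lt b hN
  simp only [canon]
  split_ifs <;> omega

lemma low_of_not_col {AF : ℕ → ℕ → Prop} (hirr : ∀ a, ¬ AF a a) {N m k : ℕ} (hN : 0 < N)
    (hk : k + m + 1 = N) (h : ¬ Col AF (range N) m) (cn : Bool) :
    Low cn (AG AF N) ((2 * N + 1) * N + 1) k := by
  classical
  refine ⟨canon N, prp_canon AF hN _, fun S _ _ j ⟨c, hc1, hc2⟩ => ?_⟩
  by_contra hlt
  push Not at hlt
  apply h
  set u := (2 * N + 1) * N with hu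
  set R := (S.erase u).image (· % N) with hR
  have hrep : ∀ i, ∃ a, i ∈ R → a ∈ S ∧ a ≠ u ∧ a % N = i := by
    intro i
    by_cases hi : i ∈ R
    · obtain ⟨a, ha, rfl⟩ := mem_image.1 hi
      exact ⟨a, fun _ => ⟨mem_of_mem_erase ha, ne_of_mem_erase ha, rfl⟩⟩
    · exact ⟨0, fun h => absurd h hi⟩
  choose rep hrep using hrep
  set U : Finset ℕ := if u ∈ S then (range j).erase (c u) else range j with hU
  have hRN : R ⊆ range N := fun i hi => by
    obtain ⟨a, -, rfl⟩ := mem_image.1 hi
    exact mem_range.2 (Nat.mod_lt a hN)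
  have hcard : U.card + (S.image (canon N)).card ≤ j + R.card := by
    by_cases hus : u ∈ S
    · have h1 : S.image (canon N) ⊆ insert N R := by
        intro x hx
        obtain ⟨a, ha, rfl⟩ := mem_image.1 hx
        by_cases hau : a = u
        · simp [canon, hau, hu]
        · refine mem_insert_of_mem (mem_image.2 ⟨a, mem_erase.2 ⟨hau, ha⟩, ?_⟩)
          simp only [canon]
          rw [if_neg hau]
      have h2 := (card_le_card h1).trans (card_insert_le _ _)
      have h3 := hc1 u hus
      rw [hU, if_pos hus, card_erase_of_mem (mem_range.2 h3), card_range]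
      omega
    · have h1 : S.image (canon N) ⊆ R := by
        intro x hx
        obtain ⟨a, ha, rfl⟩ := mem_image.1 hx
        have hau : a ≠ u := fun h => hus (h ▸ ha)
        refine mem_image.2 ⟨a, mem_erase.2 ⟨hau, ha⟩, ?_⟩
        simp only [canon]
        rw [if_neg hau]
      have h2 := card_le_card h1
      rw [hU, if_neg hus, card_range]
      omega
  let d : ℕ → ℕ := fun i => if i ∈ R then 2 * c (rep i) else 2 * i + 1
  refine col_of_card (c := d) (fun a _ b _ hab => ?_) ?_
  · have hne : a ≠ b := fun h => hirr a (h ▸ hab)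
    simp only [d]
    split_ifs with ha hb hb
    · obtain ⟨a1, a2, a3⟩ := hrep a ha
      obtain ⟨b1, b2, b3⟩ := hrep b hb
      have := hc2 _ a1 _ b1 ⟨fun h => hne (by rw [← a3, ← b3, h]),
        Or.inr (Or.inr ⟨by rw [a3, b3]; exact hne, Or.inr (by rw [a3, b3]; exact hab)⟩)⟩
      omega
    all_goals omega
  · have h1 : (range N).image d ⊆ U.image (2 * ·) ∪ (range N \ R).image (2 * · + 1) := by
      intro x hx
      obtain ⟨i, hi, rfl⟩ := mem_image.1 hx
      by_cases hiR : i ∈ R
      · refine mem_union_left _ (mem_image.2 ⟨c (rep i), ?_, by simp [d, hiR]⟩)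
        obtain ⟨a1, a2, -⟩ := hrep i hiR
        have h3 := mem_range.2 (hc1 _ a1)
        rw [hU]
        split_ifs with hus
        · exact mem_erase.2 ⟨hc2 _ a1 _ hus ⟨a2, Or.inr (Or.inl hu)⟩, h3⟩
        · exact h3
      · exact mem_union_right _ (mem_image.2 ⟨i, mem_sdiff.2 ⟨hi, hiR⟩, by simp [d, hiR]⟩)
    have h2 := (card_le_card h1).trans (card_union_le _ _)
    have h3 := card_image_le (s := U) (f := (2 * ·))
    have h4 := card_image_le (s := range N \ R) (f := (2 * · + 1))
    have h5 := card_sdiff_add_card_eq_card hRN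
    rw [card_range] at h5
    omega

lemma conn_of_mem {AF : ℕ → ℕ → Prop} {N : ℕ} {S : Finset ℕ} (h : (2 * N + 1) * N ∈ S) :
    Conn (AG AF N) S := by
  refine ⟨_, h, fun a => if a = (2 * N + 1) * N then 0 else 1, fun v _ hv => ⟨_, h, ?_, ?_⟩⟩
  · exact ⟨hv.symm, Or.inl rfl⟩
  · simp [hv]

lemma not_low_of_col {AF : ℕ → ℕ → Prop} {N m k : ℕ} (hN : 0 < N)
    (hk : k + m + 1 = N) (h : Col AF (range N) m) (cn : Bool) :
    ¬ Low cn (AG AF N) ((2 * N + 1) * N + 1) k := by
  classical
  rintro ⟨c, hc, hlow⟩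
  obtain ⟨cF, hF1, hF2⟩ := h
  set u := (2 * N + 1) * N with hu
  have hmem : ∀ {t i : ℕ}, t < 2 * N + 1 → i < N → t * N + i ∈ range (u + 1) := fun ht hi =>
    mem_range.2 ((layer_lt ht hi).trans (Nat.lt_succ_self _))
  have humem : u ∈ range (u + 1) := self_mem_range_succ u
  by_cases h1 : ∃ t < 2 * N + 1, Set.InjOn (fun i => c (t * N + i)) (range N)
  · obtain ⟨t, ht, hinj⟩ := h1
    set S := insert u ((range N).image (t * N + ·)) with hS
    have hSsub : S ⊆ range (u + 1) := by
      intro a ha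
      rcases mem_insert.1 ha with rfl | ha
      · exact humem
      · obtain ⟨i, hi, rfl⟩ := mem_image.1 ha
        exact hmem ht (mem_range.1 hi)
    have hcol : Col (AG AF N) S (m + 1) := by
      refine ⟨fun a => if a = u then m else cF (a % N), fun a _ => ?_, fun a ha b hb hab => ?_⟩
      · have := hF1 _ (mem_range.2 (Nat.mod_lt a hN))
        dsimp only
        split_ifs <;> omega
      · have a1 := hF1 _ (mem_range.2 (Nat.mod_lt a hN))
        have b1 := hF1 _ (mem_range.2 (Nat.mod_lt b hN))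
        obtain ⟨hne, hab⟩ := hab
        dsimp only
        split_ifs with h2 h3 h3
        · omega
        · omega
        · omega
        · obtain ⟨i, hi, rfl⟩ := mem_image.1 ((mem_insert.1 ha).resolve_left h2)
          obtain ⟨l, hl, rfl⟩ := mem_image.1 ((mem_insert.1 hb).resolve_left h3)
          rcases hab with hab | hab | ⟨-, hab | hab⟩
          · exact absurd hab h2
          · exact absurd hab h3
          · rw [layer_div (mem_range.1 hi), layer_div (mem_range.1 hl)] at hab
            exact absurd rfl hab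
          · exact hF2 _ (mem_range.2 (Nat.mod_lt _ hN)) _ (mem_range.2 (Nat.mod_lt _ hN)) hab
    have h2 := hlow S hSsub (fun _ => conn_of_mem (mem_insert_self _ _)) _ hcol
    have h3 : c u ∉ ((range N).image (t * N + ·)).image c := by
      intro hh
      obtain ⟨a, ha, hca⟩ := mem_image.1 hh
      obtain ⟨i, hi, rfl⟩ := mem_image.1 ha
      have := layer_lt ht (mem_range.1 hi)
      exact hc _ (hmem ht (mem_range.1 hi)) _ humem ⟨this.ne, Or.inr (Or.inl hu)⟩ hca
    rw [hS, image_insert, card_insert_of_notMem h3, image_image,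
      card_image_of_injOn (f := c ∘ fun x => t * N + x) hinj, card_range] at h2
    omega
  · push Not at h1
    have h2 : ∀ t, ∃ i, t < 2 * N + 1 → i < N ∧ ∃ i' < N, i ≠ i' ∧
        c (t * N + i) = c (t * N + i') := by
      intro t
      by_cases ht : t < 2 * N + 1
      · have := h1 t ht
        simp only [Set.InjOn, coe_range, Set.mem_Iio, not_forall] at this
        obtain ⟨i, hi, i', hi', h3, h4⟩ := this
        exact ⟨i, fun _ => ⟨hi, i', hi', h4, h3⟩⟩
      · exact ⟨0, fun h => absurd h ht⟩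
    choose ι hι using h2
    have hinj : Set.InjOn (fun t => c (t * N + ι t)) (range (2 * N + 1)) := by
      intro t ht t' ht' h3
      by_contra hne
      have ht := mem_range.1 ht
      have ht' := mem_range.1 ht'
      obtain ⟨a1, i', a2, a3, a4⟩ := hι t ht
      obtain ⟨b1, -⟩ := hι t' ht'
      have key : ∀ i < N, i ≠ ι t' → c (t * N + i) ≠ c (t' * N + ι t') := by
        intro i hi hii
        refine hc _ (hmem ht hi) _ (hmem ht' b1) ⟨fun h => hne ?_, Or.inr (Or.inr ⟨?_, Or.inl ?_⟩)⟩
        · rw [← layer_div (t := t) hi, h, layer_div b1]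
        · rwa [layer_mod hi, layer_mod b1]
        · rwa [layer_div hi, layer_div b1]
      by_cases h4 : ι t = ι t'
      · exact key i' a2 (h4 ▸ a3.symm) (a4 ▸ h3)
      · exact key _ a1 h4 h3
    have h3 : (range (2 * N + 1)).image (fun t => c (t * N + ι t)) ⊆ (range (u + 1)).image c := by
      intro x hx
      obtain ⟨t, ht, rfl⟩ := mem_image.1 hx
      exact mem_image_of_mem c (hmem (mem_range.1 ht) (hι t (mem_range.1 ht)).1)
    have h4 := card_le_card h3
    rw [card_image_of_injOn hinj, card_range] at h4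
    have hcol : Col (AG AF N) (range (u + 1)) (N + 1) := by
      refine ⟨canon N, fun a _ => ?_, prp_canon AF hN _⟩
      have := Nat.mod_lt a hN
      simp only [canon]
      split_ifs <;> omega
    have h5 := hlow _ Subset.rfl (fun _ => conn_of_mem humem) _ hcol
    omega

/-- One direction of the adjacency relation of the graph attached to a formula. -/
def BF (φ : List (List (ℕ × Bool))) (n a b : ℕ) : Prop :=
  (a ≤ n ∧ b ≤ n ∧ a ≠ b) ∨
  (1 ≤ a ∧ a ≤ n ∧ n < b ∧ b ≤ 3 * n ∧ a ≠ (b - n - 1) / 2 + 1) ∨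
  (n < a ∧ a ≤ 3 * n ∧ n < b ∧ b ≤ 3 * n ∧ a ≠ b ∧ (a - n - 1) / 2 = (b - n - 1) / 2) ∨
  (a = 0 ∧ 3 * n < b) ∨
  (n < a ∧ a ≤ 3 * n ∧ 3 * n < b ∧
    ((a - n - 1) / 2, decide ((a - n - 1) % 2 = 1)) ∉ φ.getD (b - 3 * n - 1) [])

/-- Adjacency relation of the graph attached to a formula. -/
def AF (φ : List (List (ℕ × Bool))) (n a b : ℕ) : Prop := BF φ n a b ∨ BF φ n b a

lemma AF_irrefl (φ : List (List (ℕ × Bool))) (n a : ℕ) : ¬ AF φ n a a := by
  simp only [AF, BF, or_self]
  omega

lemma AF_symm (φ : List (List (ℕ × Bool))) (n a b : ℕ) : AF φ n a b ↔ AF φ n b a := or_comm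

/-- Satisfiability. -/
def Sat (φ : List (List (ℕ × Bool))) : Prop := ∃ s : ℕ → Bool, ∀ C ∈ φ, ∃ l ∈ C, s l.1 = l.2

lemma col_of_sat {φ : List (List (ℕ × Bool))} {n : ℕ} (hn : ∀ C ∈ φ, ∀ l ∈ C, l.1 < n)
    (h : Sat φ) : Col (AF φ n) (range (3 * n + 1 + φ.length)) (n + 1) := by
  obtain ⟨s, hs⟩ := h
  have h1 : ∀ j, ∃ i, j < φ.length → i < n ∧ (i, s i) ∈ φ.getD j [] := by
    intro j
    by_cases hj : j < φ.length
    · obtain ⟨l, hl, h⟩ := hs _ (List.getElem_mem hj)
      refine ⟨l.1, fun _ => ⟨hn _ (List.getElem_mem hj) l hl, ?_⟩⟩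
      rw [List.getD_eq_getElem _ _ hj, h]
      exact hl
    · exact ⟨0, fun h => absurd h hj⟩
  choose ι hι using h1
  let c : ℕ → ℕ := fun a => if a ≤ n then a else if a ≤ 3 * n then
    (if s ((a - n - 1) / 2) = decide ((a - n - 1) % 2 = 1) then (a - n - 1) / 2 + 1 else 0)
    else ι (a - 3 * n - 1) + 1
  have key : ∀ a ∈ range (3 * n + 1 + φ.length), ∀ b ∈ range (3 * n + 1 + φ.length),
      BF φ n a b → c a ≠ c b := by
    intro a ha b hb hab
    rw [mem_range] at ha hb
    rcases hab with ⟨h1, h2, h3⟩ | ⟨h1, h2, h3, h4, h5⟩ | ⟨h1, h2, h3, h4, h5, h6⟩ | ⟨h1, h2⟩ |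
      ⟨h1, h2, h3, h4⟩
    · simp only [c, if_pos h1, if_pos h2]; exact h3
    · simp only [c, if_pos h2, if_neg (not_le.2 h3), if_pos h4]
      split_ifs <;> omega
    · simp only [c, if_neg (not_le.2 h1), if_pos h2, if_neg (not_le.2 h3), if_pos h4, ← h6]
      have : decide ((b - n - 1) % 2 = 1) = !decide ((a - n - 1) % 2 = 1) := by
        rcases Nat.mod_two_eq_zero_or_one (a - n - 1) with h | h <;>
        rcases Nat.mod_two_eq_zero_or_one (b - n - 1) with h' | h' <;>
        first | omega | simp [h, h']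
      rw [this]
      cases s ((a - n - 1) / 2) <;> cases decide ((a - n - 1) % 2 = 1) <;> simp
    · subst h1
      simp only [c, if_pos (Nat.zero_le n), if_neg (show ¬ b ≤ n by omega), if_neg (not_le.2 h2)]
      omega
    · simp only [c, if_neg (not_le.2 h1), if_pos h2, if_neg (show ¬ b ≤ n by omega),
        if_neg (not_le.2 h3)]
      split_ifs with h5
      · intro h6
        apply h4
        have := (hι (b - 3 * n - 1) (by omega)).2
        rw [← h5, show (a - n - 1) / 2 = ι (b - 3 * n - 1) by omega]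
        exact this
      · omega
  refine ⟨c, fun a ha => ?_, fun a ha b hb hab => ?_⟩
  · rw [mem_range] at ha
    simp only [c]
    split_ifs with h1 h2 h3
    · omega
    · omega
    · omega
    · have := (hι (a - 3 * n - 1) (by omega)).1
      omega
  · rcases hab with hab | hab
    · exact key a ha b hb hab
    · exact (key b hb a ha hab).symm

lemma sat_of_col {φ : List (List (ℕ × Bool))} {n : ℕ}
    (h : Col (AF φ n) (range (3 * n + 1 + φ.length)) (n + 1)) : Sat φ := by
  classical
  obtain ⟨c, h1, h2⟩ := h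
  have hB : ∀ a b, a < 3 * n + 1 + φ.length → b < 3 * n + 1 + φ.length → BF φ n a b →
      c a ≠ c b := fun a b ha hb hab => h2 a (mem_range.2 ha) b (mem_range.2 hb) (Or.inl hab)
  have hsurj : ∀ v, v < 3 * n + 1 + φ.length → ∃ a ≤ n, c a = c v := by
    intro v hv
    have := surjOn_of_injOn_of_card_le (s := range (n + 1)) (t := range (n + 1)) c
      (fun a ha => by
        have := mem_range.1 ha
        exact mem_range.2 (h1 a (mem_range.2 (by omega))))
      (fun a ha b hb hab => by
        have ha := mem_range.1 ha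
        have hb := mem_range.1 hb
        by_contra hne
        exact hB a b (by omega) (by omega) (Or.inl ⟨by omega, by omega, hne⟩) hab) le_rfl
      (mem_range.2 (h1 v (mem_range.2 hv)))
    obtain ⟨a, ha, hca⟩ := this
    exact ⟨a, Nat.lt_succ_iff.1 (mem_range.1 ha), hca⟩
  have hlit : ∀ i < n, ∀ e < 2, c (n + 1 + 2 * i + e) = c 0 ∨ c (n + 1 + 2 * i + e) = c (i + 1) := by
    intro i hi e he
    obtain ⟨a, ha, hca⟩ := hsurj (n + 1 + 2 * i + e) (by omega)
    by_cases h0 : a = 0
    · left; rw [← hca, h0]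
    · by_cases h3 : a = i + 1
      · right; rw [← hca, h3]
      · exact absurd hca (hB _ _ (by omega) (by omega)
          (Or.inr (Or.inl ⟨by omega, ha, by omega, by omega, by omega⟩)))
  refine ⟨fun i => decide (c (n + 1 + 2 * i + 1) = c (i + 1)), fun C hC => ?_⟩
  obtain ⟨j, hj, rfl⟩ := List.getElem_of_mem hC
  obtain ⟨a, ha, hca⟩ := hsurj (3 * n + 1 + j) (by omega)
  have h0 : a ≠ 0 := by
    rintro rfl
    exact hB _ _ (by omega) (by omega) (Or.inr (Or.inr (Or.inr (Or.inl ⟨rfl, by omega⟩)))) hca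
  obtain ⟨i, rfl⟩ : ∃ i, a = i + 1 := ⟨a - 1, by omega⟩
  have hin : ∀ e < 2, c (n + 1 + 2 * i + e) = c (i + 1) → (i, decide (e = 1)) ∈ φ[j] := by
    intro e he hce
    by_contra hnot
    refine hB (n + 1 + 2 * i + e) (3 * n + 1 + j) (by omega) (by omega)
      (Or.inr (Or.inr (Or.inr (Or.inr ⟨by omega, by omega, by omega, ?_⟩)))) (hce.trans hca)
    rw [show (n + 1 + 2 * i + e - n - 1) / 2 = i by omega,
      show (n + 1 + 2 * i + e - n - 1) % 2 = e by omega,
      show 3 * n + 1 + j - 3 * n - 1 = j by omega, List.getD_eq_getElem _ _ hj]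
    exact hnot
  by_cases h3 : c (n + 1 + 2 * i + 1) = c (i + 1)
  · exact ⟨_, hin 1 (by omega) h3, by simp [h3]⟩
  · have h4 := (hlit i (by omega) 1 (by omega)).resolve_right h3
    have h5 := hB (n + 1 + 2 * i + 0) (n + 1 + 2 * i + 1) (by omega) (by omega)
      (Or.inr (Or.inr (Or.inl ⟨by omega, by omega, by omega, by omega, by omega, by omega⟩)))
    have h6 := (hlit i (by omega) 0 (by omega)).resolve_left (fun h => h5 (h.trans h4.symm))
    exact ⟨_, hin 0 (by omega) h6, by simp [h3]⟩

theorem low_iff_not_sat {φ : List (List (ℕ × Bool))} {n : ℕ} (h0 : 0 < n)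
    (hn : ∀ C ∈ φ, ∀ l ∈ C, l.1 < n) (cn : Bool) :
    Low cn (AG (AF φ n) (3 * n + 1 + φ.length))
      ((2 * (3 * n + 1 + φ.length) + 1) * (3 * n + 1 + φ.length) + 1) (2 * n - 1 + φ.length) ↔
      ¬ Sat φ :=
  ⟨fun h hs => not_low_of_col (by omega) (by omega) (col_of_sat hn hs) cn h,
    fun h => low_of_not_col (m := n + 1) (AF_irrefl φ n) (by omega) (by omega)
      (fun hc => h (sat_of_col hc)) cn⟩

end Pool.Agent.MP_e16607_lc
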