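import Pool.Agent.MP_e16607_lc.Bin
import Pool.Agent.MP_e16607_lc.Reduction
import Pool.Agent.MP_2e8011_lc.CookLevin

set_option autoImplicit false

open Pool.Agent.MP_2e8011_lc Computability

namespace Pool.Agent.MP_e16607_lc

/-- The matrix of a Boolean relation. -/
def mat (n : ℕ) (A : ℕ → ℕ → Bool) : List (List Bool) :=
  (List.range n).map fun i => (List.range n).map fun j => A i j

/-- Numeric description of the two languages. -/
def Lang (cn : Bool) (x : List Bool) : Prop :=
  ∃ (n k : ℕ) (A : ℕ → ℕ → Bool), (∀ i < n, ∀ j < n, A i j = A j i) ∧ (∀ i < n, A i i = false) ∧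
    x = delim (enc (mat n A)) ++ encodeNat k ∧ Low cn (fun i j => A i j = true) n k

open Classical in
lemma code_eq {n : ℕ} (G : SimpleGraph (Fin n)) (k : ℕ) {A : ℕ → ℕ → Bool}
    (hA : ∀ i j : Fin n, G.Adj i j ↔ A i j = true) :
    code G k = delim (enc (mat n A)) ++ encodeNat k := by
  have h : (List.ofFn fun i => List.ofFn fun j => decide (G.Adj i j)) = mat n A := by
    refine List.ext_getElem (by simp [mat]) fun i h1 h2 => ?_
    refine List.ext_getElem (by simp [mat]) fun j h3 h4 => ?_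
    simp [mat, hA]
  rw [code, h]
  change N487b59b3.delimit (N487b59b3.bitEncode (mat n A)) ++ encodeNat k = _
  rw [delim_eq, agree_list (agree_list agree_bool)]

lemma exists_graph_iff (cn : Bool) (φ : ∀ {n : ℕ}, SimpleGraph (Fin n) → ℕ∞)
    (hφ : ∀ {n : ℕ} {G : SimpleGraph (Fin n)} {A : ℕ → ℕ → Prop},
      (∀ i j : Fin n, G.Adj i j ↔ A i j) → ∀ k : ℕ, φ G ≤ k ↔ Low cn A n k) (x : List Bool) :
    (∃ (n : ℕ) (G : SimpleGraph (Fin n)) (k : ℕ), x = code G k ∧ φ G ≤ k) ↔ Lang cn x := by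
  classical
  constructor
  · rintro ⟨n, G, k, hx, h⟩
    let A : ℕ → ℕ → Bool := fun i j =>
      if h : i < n ∧ j < n then decide (G.Adj ⟨i, h.1⟩ ⟨j, h.2⟩) else false
    have hA : ∀ i j : Fin n, G.Adj i j ↔ A i j = true := fun i j => by simp [A]
    refine ⟨n, k, A, fun i hi j hj => ?_, fun i hi => ?_, hx.trans (code_eq G k hA),
      (hφ hA k).1 h⟩
    · simp [A, hi, hj, G.adj_comm]
    · simp [A, hi]
  · rintro ⟨n, k, A, h1, h2, hx, h⟩
    let G : SimpleGraph (Fin n) :=
      { Adj := fun i j => A i j = true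
        symm := ⟨fun i j h => by rw [← h1 _ i.2 _ j.2]; exact h⟩
        loopless := ⟨fun i h => by rw [h2 _ i.2] at h; exact Bool.noConfusion h⟩ }
    have hA : ∀ i j : Fin n, G.Adj i j ↔ A i j = true := fun _ _ => Iff.rfl
    exact ⟨n, G, k, hx.trans (code_eq G k hA).symm, (hφ hA k).2 h⟩

lemma langDisc_iff (x : List Bool) : langDisc x = true ↔ Lang false x := by
  classical
  exact decide_eq_true_iff.trans (exists_graph_iff false (fun G => disc G) disc_le_iff x)

lemma langCdisc_iff (x : List Bool) : langCdisc x = true ↔ Lang true x := by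
  classical
  exact decide_eq_true_iff.trans (exists_graph_iff true (fun G => cdisc G) cdisc_le_iff x)

/-- The inner, universally quantified part of `Low`. -/
def Inner (cn : Bool) (A : ℕ → ℕ → Prop) (n k : ℕ) (c : ℕ → ℕ) : Prop :=
  ∀ S ⊆ Finset.range n, (cn = true → Conn A S) → ∀ j, Col A S j → (S.image c).card ≤ j + k

lemma Inner.congr {cn : Bool} {A A' : ℕ → ℕ → Prop} {n k : ℕ} {c c' h : ℕ → ℕ}
    (hA : ∀ i < n, ∀ j < n, A i j ↔ A' i j) (hc : ∀ i < n, c' i = h (c i))
    (H : Inner cn A n k c) : Inner cn A' n k c' := by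
  intro S hS h1 j ⟨d, hd1, hd2⟩
  have hlt : ∀ a ∈ S, a < n := fun a ha => Finset.mem_range.1 (hS ha)
  refine le_trans ?_ (H S hS (fun hcn => ?_) j ⟨d, hd1, fun a ha b hb hab =>
    hd2 a ha b hb ((hA a (hlt a ha) b (hlt b hb)).1 hab)⟩)
  · rw [Finset.image_congr (g := h ∘ c) (fun a ha => hc a (hlt a ha)), ← Finset.image_image]
    exact Finset.card_image_le
  · obtain ⟨r, hr, rk, h2⟩ := h1 hcn
    refine ⟨r, hr, rk, fun v hv hne => ?_⟩
    obtain ⟨u, hu, h3, h4⟩ := h2 v hv hne
    exact ⟨u, hu, (hA u (hlt u hu) v (hlt v hv)).2 h3, h4⟩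

lemma Low.congr {cn : Bool} {A A' : ℕ → ℕ → Prop} {n k : ℕ}
    (hA : ∀ i < n, ∀ j < n, A i j ↔ A' i j) (H : Low cn A n k) : Low cn A' n k := by
  obtain ⟨c, h1, h2⟩ := H
  exact ⟨c, fun a ha b hb hab => h1 a ha b hb
    ((hA a (Finset.mem_range.1 ha) b (Finset.mem_range.1 hb)).2 hab),
    Inner.congr (h := id) hA (fun _ _ => rfl) h2⟩

lemma lang_code_iff {cn : Bool} {n k : ℕ} {A : ℕ → ℕ → Bool}
    (h1 : ∀ i < n, ∀ j < n, A i j = A j i) (h2 : ∀ i < n, A i i = false) :
    Lang cn (delim (enc (mat n A)) ++ encodeNat k) ↔ Low cn (fun i j => A i j = true) n k := by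
  refine ⟨?_, fun h => ⟨n, k, A, h1, h2, rfl, h⟩⟩
  rintro ⟨n', k', A', -, -, hx, h⟩
  have := congrArg split hx
  simp only [split_delim, Prod.mk.injEq] at this
  have hm := Enc.inj this.1
  have hk : k = k' := by rw [← val_encodeNat k, this.2, val_encodeNat]
  have hn : n = n' := by simpa [mat] using congrArg List.length hm
  subst hk hn
  refine h.congr fun i hi j hj => ?_
  have e1 := List.map_inj_left.1 hm i (List.mem_range.2 hi)
  have e2 := List.map_inj_left.1 e1 j (List.mem_range.2 hj)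
  rw [e2]

/-- Evaluation of a formula under an assignment given by a bit string. -/
def evalCNF (φ : CNF) (a : List Bool) : Bool :=
  φ.all fun C => C.any fun l => decide (a.getD l.1 false = l.2)

lemma pt_evalCNF {α : Type} [Enc α] {φ : α → CNF} {a : α → List Bool} (hφ : PT φ) (ha : PT a) :
    PT (fun x => evalCNF (φ x) (a x)) := by
  unfold evalCNF
  fun_prop

lemma var_lt_sz {φ : CNF} {C : List (ℕ × Bool)} (hC : C ∈ φ) {l : ℕ × Bool} (hl : l ∈ C) :
    l.1 < sz φ := by
  have h1 := sz_le_of_mem hC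
  have h2 := sz_le_of_mem hl
  rw [← Prod.mk.eta (p := l), sz_prod, sz_nat] at h2
  omega

lemma sat_iff_eval (φ : CNF) : MP_2e8011_lc.Sat φ ↔
    ∃ a : List Bool, a.length ≤ sz φ ∧ evalCNF φ a = true := by
  simp only [evalCNF, List.all_eq_true, List.any_eq_true, decide_eq_true_eq]
  constructor
  · rintro ⟨s, hs⟩
    refine ⟨(List.range (sz φ)).map s, by simp, fun C hC => ?_⟩
    obtain ⟨l, hl, h⟩ := hs C hC
    refine ⟨l, hl, ?_⟩
    rw [List.getD_eq_getElem _ _ (by simpa using var_lt_sz hC hl)]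
    simpa using h
  · rintro ⟨a, -, h⟩
    exact ⟨fun i => a.getD i false, h⟩

lemma sz_bits (l : List Bool) : sz l = 3 * l.length := by
  induction l with
  | nil => rfl
  | cons b l ih => simp [ih]; omega

theorem np_of_exists {A B : List Bool → Bool} (hB : B ∈ N68a2faeb.NP)
    {f : List Bool × List Bool → List Bool} (hf : PT f) (q : Polynomial ℕ)
    (h : ∀ x, A x = true ↔ ∃ w : List Bool, w.length ≤ q.eval x.length ∧ B (f (x, w)) = true) :
    A ∈ N68a2faeb.NP := by
  obtain ⟨g, hg, hgB⟩ := cookLevin hB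
  have hgf : PT (fun p => g (f p)) := hg.comp hf
  obtain ⟨p, hp⟩ := hgf.pb_sz
  have h1 : PT (fun v : List Bool × List Bool => (split v.2).1) := pt_split_fst (by fun_prop)
  have h2 : PT (fun v : List Bool × List Bool => (split v.2).2) := pt_split_snd (by fun_prop)
  have h3 : PT (fun v : List Bool × List Bool => g (f (v.1, (split v.2).1))) :=
    hgf.comp (f := fun v : List Bool × List Bool => (v.1, (split v.2).1)) (by fun_prop)
  refine mem_NP_of_PT (2 * q + 1 + p.comp (6 * Polynomial.X + 1 + 3 * q))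
    (fun v => decide ((split v.2).1.length ≤ q.eval v.1.length) &&
      evalCNF (g (f (v.1, (split v.2).1))) (split v.2).2) ?_ fun x => ?_
  · exact PT.and (PT.le h1.length (by fun_prop)) (pt_evalCNF h3 h2)
  · rw [h]
    simp only [Bool.and_eq_true, decide_eq_true_eq]
    constructor
    · rintro ⟨w, hw, hB⟩
      obtain ⟨a, ha, hev⟩ := (sat_iff_eval _).1 ((hgB _).1 hB)
      refine ⟨delim w ++ a, ?_, by simpa using hw, by simpa using hev⟩
      have h4 : sz (g (f (x, w))) ≤ p.eval (sz (x, w)) := hp (x, w)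
      rw [sz_prod, sz_bits, sz_bits] at h4
      have h5 := eval_mono p (show 2 * (3 * x.length) + 1 + 3 * w.length ≤
        6 * x.length + 1 + 3 * q.eval x.length by omega)
      simp [Polynomial.eval_comp]
      omega
    · rintro ⟨v, -, h4, h5⟩
      exact ⟨_, h4, (hgB _).2 ⟨fun i => (split v).2.getD i false, by
        simpa [evalCNF, SatBy] using h5⟩⟩

theorem np_of_red {A B : List Bool → Bool} (hB : B ∈ N68a2faeb.NP)
    {f : List Bool → List Bool} (hf : PT f) (h : ∀ x, A x = true ↔ B (f x) = true) :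
    A ∈ N68a2faeb.NP :=
  np_of_exists hB (f := fun p => f p.1) (by fun_prop) 0 fun x => by
    rw [h]
    exact ⟨fun h => ⟨[], by simp, h⟩, fun ⟨_, _, h⟩ => h⟩

end Pool.Agent.MP_e16607_lc
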