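import Pool.Agent.MP_e16607_lc.Hard

set_option autoImplicit false
set_option synthInstance.maxSize 2048

open Pool.Agent.MP_2e8011_lc Computability

namespace Pool.Agent.MP_e16607_lc

/-- The outer certificate describes a graph, a proper colouring, and matches the input. -/
def Outer (x w : List Bool) (W : ℕ) : Prop :=
  (∀ i < rd w W 0 0 0, ∀ j < rd w W 0 0 0,
    (rd w W 1 i j = 1 → rd w W 1 j i = 1 ∧ rd w W 2 i 0 ≠ rd w W 2 j 0)) ∧
  (split x).1 = enc (mat (rd w W 0 0 0) fun i j => decide (rd w W 1 i j = 1)) ∧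
  x = delim (split x).1 ++ (split x).2 ∧ (split x).2.reverse.headD true = true

instance (x w : List Bool) (W : ℕ) : Decidable (Outer x w W) := by unfold Outer; infer_instance

/-- The inner certificate describes a violating induced subgraph. -/
def Viol (cn : Bool) (w z : List Bool) (W k : ℕ) : Prop :=
  (cn = true → ∃ r < rd w W 0 0 0, rd z W 0 r 0 = 1 ∧ ∀ v < rd w W 0 0 0, rd z W 0 v 0 = 1 →
    v ≠ r → ∃ u < rd w W 0 0 0, rd z W 0 u 0 = 1 ∧ rd w W 1 u v = 1 ∧
      rd z W 3 u 0 < rd z W 3 v 0) ∧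
  (∀ a < rd w W 0 0 0, rd z W 0 a 0 = 1 → rd z W 2 a 0 < rd z W 1 0 0) ∧
  (∀ a < rd w W 0 0 0, ∀ b < rd w W 0 0 0, rd z W 0 a 0 = 1 → rd z W 0 b 0 = 1 →
    rd w W 1 a b = 1 → rd z W 2 a 0 ≠ rd z W 2 b 0) ∧
  rd z W 1 0 0 + k < ((List.range (W + 1)).filter fun col =>
    decide (∃ i < rd w W 0 0 0, rd z W 0 i 0 = 1 ∧ rd w W 2 i 0 = col)).length

instance (cn : Bool) (w z : List Bool) (W k : ℕ) : Decidable (Viol cn w z W k) := by
  unfold Viol; infer_instance

section
variable {α : Type} [Enc α]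

theorem pt_Outer {x w : α → List Bool} {W : α → ℕ} (hx : PT x) (hw : PT w) (hW : PT W) :
    PT (fun a => decide (Outer (x a) (w a) (W a))) := by
  have h1 := pt_split_fst hx
  have h2 := pt_split_snd hx
  have h3 := pt_delim_append h1 h2
  have h4 : PT (fun a => mat (rd (w a) (W a) 0 0 0) fun i j =>
      decide (rd (w a) (W a) 1 i j = 1)) := by
    unfold mat
    fun_prop
  unfold Outer
  refine PT.decide_and (by fun_prop) (PT.decide_and (PT.eq h1 h4.enc)
    (PT.decide_and (PT.eq hx h3) (PT.eq (h2.reverse.headD (PT.const _)) (PT.const _))))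

theorem pt_Viol (cn : Bool) {w z : α → List Bool} {W k : α → ℕ} (hw : PT w) (hz : PT z)
    (hW : PT W) (hk : PT k) : PT (fun a => decide (Viol cn (w a) (z a) (W a) (k a))) := by
  unfold Viol
  fun_prop

end

lemma card_image_eq_length {n W : ℕ} {c : ℕ → ℕ} (hc : ∀ i, c i ≤ W) (p : ℕ → Prop)
    [DecidablePred p] : (((Finset.range n).filter p).image c).card =
      ((List.range (W + 1)).filter fun col => decide (∃ i < n, p i ∧ c i = col)).length := by
  rw [← List.toFinset_card_of_nodup (List.nodup_range.filter _)]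
  congr 1
  ext col
  simp only [Finset.mem_image, Finset.mem_filter, Finset.mem_range, List.mem_toFinset,
    List.mem_filter, List.mem_range, decide_eq_true_eq]
  constructor
  · rintro ⟨i, ⟨h1, h2⟩, rfl⟩
    exact ⟨Nat.lt_succ_of_le (hc i), i, h1, h2, rfl⟩
  · rintro ⟨-, i, h1, h2, h3⟩
    exact ⟨i, ⟨h1, h2⟩, h3⟩

lemma not_inner_of_viol {cn : Bool} {w z : List Bool} {W k : ℕ}
    (h : Viol cn w z W (min k (rd w W 0 0 0))) :
    ¬ Inner cn (fun i j => rd w W 1 i j = 1) (rd w W 0 0 0) k (fun i => rd w W 2 i 0) := by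
  obtain ⟨h1, h2, h3, h4⟩ := h
  intro H
  rw [← card_image_eq_length (fun i => rd_le w W 2 i 0) (fun i => rd z W 0 i 0 = 1)] at h4
  have h5 := H ((Finset.range (rd w W 0 0 0)).filter fun i => rd z W 0 i 0 = 1)
    (Finset.filter_subset _ _) (fun hcn => ?_) (rd z W 1 0 0) ⟨fun a => rd z W 2 a 0, ?_, ?_⟩
  · have h6 := (Finset.card_image_le (f := fun i => rd w W 2 i 0)).trans
      (Finset.card_filter_le (Finset.range (rd w W 0 0 0)) fun i => rd z W 0 i 0 = 1)
    rw [Finset.card_range] at h6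
    omega
  · obtain ⟨r, hr, hr', h⟩ := h1 hcn
    refine ⟨r, by simp [hr, hr'], fun v => rd z W 3 v 0, fun v hv hne => ?_⟩
    simp only [Finset.mem_filter, Finset.mem_range] at hv
    obtain ⟨u, hu, hu', h⟩ := h v hv.1 hv.2 hne
    exact ⟨u, by simp [hu, hu'], h⟩
  · intro a ha
    simp only [Finset.mem_filter, Finset.mem_range] at ha
    exact h2 a ha.1 ha.2
  · intro a ha b hb
    simp only [Finset.mem_filter, Finset.mem_range] at ha hb
    exact h3 a ha.1 b hb.1 ha.2 hb.2

lemma viol_of_not_inner {cn : Bool} {w : List Bool} {W k : ℕ} (hW : rd w W 0 0 0 < W)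
    (h : ¬ Inner cn (fun i j => rd w W 1 i j = 1) (rd w W 0 0 0) k (fun i => rd w W 2 i 0)) :
    ∃ z : List Bool, z.length = 4 * W * W * W ∧ Viol cn w z W (min k (rd w W 0 0 0)) := by
  simp only [Inner, not_forall, not_le] at h
  obtain ⟨S, hS, hcn, j, ⟨d, hd1, hd2⟩, hlt⟩ := h
  set n := rd w W 0 0 0 with hn
  have hSn : S.card ≤ n := by simpa using Finset.card_le_card hS
  have hmem : ∀ a ∈ S, a < n := fun a ha => Finset.mem_range.1 (hS ha)
  have hj : j < n := by
    have := Finset.card_image_le (s := S) (f := fun i => rd w W 2 i 0)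
    omega
  obtain ⟨rk, hrk1, hrk2⟩ : ∃ rk : ℕ → ℕ, (∀ v ∈ S, rk v ≤ W) ∧ (cn = true → ∃ r ∈ S, ∀ v ∈ S,
      v ≠ r → ∃ u ∈ S, rd w W 1 u v = 1 ∧ rk u < rk v) := by
    by_cases hc : cn = true
    · obtain ⟨r, hr, rk, h⟩ := hcn hc
      refine ⟨fun v => rank (S.image rk) (rk v), fun v hv => ?_, fun _ => ⟨r, hr, fun v hv hne => ?_⟩⟩
      · have := rank_lt_card (Finset.mem_image_of_mem rk hv)
        have := Finset.card_image_le (s := S) (f := rk)
        dsimp only
        omega
      · obtain ⟨u, hu, h1, h2⟩ := h v hv hne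
        exact ⟨u, hu, h1, rank_lt_rank (Finset.mem_image_of_mem rk hu) h2⟩
    · exact ⟨fun _ => 0, fun _ _ => Nat.zero_le _, fun h => absurd h hc⟩
  obtain ⟨z, hz, hD⟩ := exists_table W fun t i _ =>
    if t = 0 then (if i ∈ S then 1 else 0) else if t = 1 then j else if t = 2 then d i else rk i
  have e0 : ∀ i < n, rd z W 0 i 0 = 1 ↔ i ∈ S := fun i hi => by
    rw [hD 0 (by omega) i (by omega) 0 (by omega) (by simp only [if_pos]; split_ifs <;> omega)]
    simp
  have e1 : rd z W 1 0 0 = j := by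
    rw [hD 1 (by omega) 0 (by omega) 0 (by omega) (by simp; omega)]
    simp
  have e2 : ∀ i ∈ S, rd z W 2 i 0 = d i := fun i hi => by
    have := hd1 i hi
    have := hmem i hi
    rw [hD 2 (by omega) i (by omega) 0 (by omega) (by simp; omega)]
    simp
  have e3 : ∀ i ∈ S, rd z W 3 i 0 = rk i := fun i hi => by
    have := hmem i hi
    rw [hD 3 (by omega) i (by omega) 0 (by omega) (by simpa using hrk1 i hi)]
    simp
  refine ⟨z, hz, fun hc => ?_, fun a ha h => ?_, fun a ha b hb h1 h2 h3 => ?_, ?_⟩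
  · obtain ⟨r, hr, h⟩ := hrk2 hc
    refine ⟨r, hmem r hr, (e0 r (hmem r hr)).2 hr, fun v hv hv' hne => ?_⟩
    have hvS := (e0 v hv).1 hv'
    obtain ⟨u, hu, h1, h2⟩ := h v hvS hne
    exact ⟨u, hmem u hu, (e0 u (hmem u hu)).2 hu, h1, by rwa [e3 u hu, e3 v hvS]⟩
  · have := (e0 a ha).1 h
    rw [e1, e2 a this]
    exact hd1 a this
  · have a1 := (e0 a ha).1 h1
    have a2 := (e0 b hb).1 h2
    rw [e2 a a1, e2 b a2]
    exact hd2 a a1 b a2 h3
  · rw [← card_image_eq_length (fun i => rd_le w W 2 i 0) (fun i => rd z W 0 i 0 = 1), e1]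
    have : (Finset.range n).filter (fun i => rd z W 0 i 0 = 1) = S := by
      ext i
      simp only [Finset.mem_filter, Finset.mem_range]
      exact ⟨fun h => (e0 i h.1).1 h.2, fun h => ⟨hmem i h, (e0 i (hmem i h)).2 h⟩⟩
    rw [this]
    omega

lemma le_length_code (n : ℕ) (A : ℕ → ℕ → Bool) (r : List Bool) :
    n < (delim (enc (mat n A)) ++ r).length + 1 := by
  have h1 := length_le_sz (mat n A)
  simp only [mat, List.length_map, List.length_range, sz] at h1
  simp only [List.length_append, length_delim, mat]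
  omega

lemma Outer.lt {x w : List Bool} {W : ℕ} (h : Outer x w W) : rd w W 0 0 0 < x.length + 1 := by
  obtain ⟨-, h1, h2, -⟩ := h
  rw [h1] at h2
  conv_rhs => rw [h2]
  exact le_length_code _ _ _

lemma mat_congr {n : ℕ} {A A' : ℕ → ℕ → Bool} (h : ∀ i < n, ∀ j < n, A i j = A' i j) :
    mat n A = mat n A' :=
  List.map_congr_left fun i hi => List.map_congr_left fun j hj =>
    h i (List.mem_range.1 hi) j (List.mem_range.1 hj)

lemma lang_iff_outer (cn : Bool) (x : List Bool) : Lang cn x ↔ ∃ w : List Bool,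
    w.length ≤ 4 * (x.length + 1) * (x.length + 1) * (x.length + 1) ∧ Outer x w (x.length + 1) ∧
      Inner cn (fun i j => rd w (x.length + 1) 1 i j = 1) (rd w (x.length + 1) 0 0 0)
        (val (split x).2) (fun i => rd w (x.length + 1) 2 i 0) := by
  constructor
  · rintro ⟨n, k, A, h1, -, hx, c, hc, hin⟩
    have hn : n < x.length + 1 := hx ▸ le_length_code n A _
    generalize x.length + 1 = W at hn
    obtain ⟨w, hw, hD⟩ := exists_table W fun t i j =>
      if t = 0 then n else if t = 1 then (if A i j = true then 1 else 0)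
        else rank ((Finset.range n).image c) (c i)
    have e0 : rd w W 0 0 0 = n := by
      rw [hD 0 (by omega) 0 (by omega) 0 (by omega) (by simp; omega)]
      simp
    have e1 : ∀ i < n, ∀ j < n, A i j = true ↔ rd w W 1 i j = 1 := fun i hi j hj => by
      rw [hD 1 (by omega) i (by omega) j (by omega) (by simp only [if_pos]; split_ifs <;> omega)]
      simp
    have e2 : ∀ i < n, rd w W 2 i 0 = rank ((Finset.range n).image c) (c i) := fun i hi => by
      have := rank_lt_card (Finset.mem_image_of_mem c (Finset.mem_range.2 hi))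
      have := Finset.card_image_le (s := Finset.range n) (f := c)
      rw [Finset.card_range] at this
      rw [hD 2 (by omega) i (by omega) 0 (by omega) (by simp; omega)]
      simp
    have hs : split x = (enc (mat n A), encodeNat k) := by rw [hx, split_delim]
    refine ⟨w, hw.le, ⟨?_, ?_, ?_, ?_⟩, ?_⟩
    · rw [e0]
      intro i hi j hj h
      have h2 := (e1 i hi j hj).2 h
      refine ⟨(e1 j hj i hi).1 (h1 i hi j hj ▸ h2), ?_⟩
      rw [e2 i hi, e2 j hj]
      exact fun h3 => hc i (Finset.mem_range.2 hi) j (Finset.mem_range.2 hj) h2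
        (rank_injOn _ (Finset.mem_image_of_mem c (Finset.mem_range.2 hi))
          (Finset.mem_image_of_mem c (Finset.mem_range.2 hj)) h3)
    · rw [hs, e0]
      refine congrArg enc (mat_congr fun i hi j hj => ?_)
      rw [Bool.eq_iff_iff, decide_eq_true_iff]
      exact e1 i hi j hj
    · rw [hs]; exact hx
    · rw [hs]; exact canon_encodeNat k
    · rw [hs, e0, val_encodeNat]
      exact Inner.congr e1 e2 hin
  · rintro ⟨w, -, ⟨h1, h2, h3, h4⟩, hin⟩
    generalize x.length + 1 = W at *
    refine ⟨rd w W 0 0 0, val (split x).2, fun i j => decide (rd w W 1 i j = 1),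
      fun i hi j hj => ?_, fun i hi => ?_, ?_, fun i => rd w W 2 i 0, fun i hi j hj h => ?_, ?_⟩
    · exact decide_eq_decide.2 ⟨fun h => (h1 i hi j hj h).1, fun h => (h1 j hj i hi h).1⟩
    · exact decide_eq_false fun h => (h1 i hi i hi h).2 rfl
    · rw [encodeNat_val h4, ← h2]; exact h3
    · exact (h1 i (Finset.mem_range.1 hi) j (Finset.mem_range.1 hj) (of_decide_eq_true h)).2
    · exact Inner.congr (h := id) (fun i _ j _ => by simp) (fun _ _ => rfl) hin

/-- The verifier of the complement of the inner language. -/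
def badR (cn : Bool) (p : List Bool × List Bool) : Bool :=
  !decide (Outer (split p.1).1 (split p.1).2 ((split p.1).1.length + 1)) ||
    decide (Viol cn (split p.1).2 p.2 ((split p.1).1.length + 1)
      (min (val (split (split p.1).1).2) (rd (split p.1).2 ((split p.1).1.length + 1) 0 0 0)))

theorem pt_badR (cn : Bool) : PT (badR cn) := by
  have h1 : PT (fun p : List Bool × List Bool => (split p.1).1) := pt_split_fst (by fun_prop)
  have h2 : PT (fun p : List Bool × List Bool => (split p.1).2) := pt_split_snd (by fun_prop)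
  have h3 : PT (fun p : List Bool × List Bool => (split p.1).1.length + 1) := h1.length.succ
  exact PT.or (pt_Outer h1 h2 h3).not (pt_Viol cn h2 (by fun_prop) h3
    (pt_min_val (pt_split_snd h1) (pt_rd h2 h3 (PT.const _) (PT.const _) (PT.const _))))

theorem mem_np_of_eq {cn : Bool} {L : List Bool → Bool} (hL : ∀ x, L x = true ↔ Lang cn x)
    (h : N68a2faeb.NP = N68a2faeb.coNP) : L ∈ N68a2faeb.NP := by
  classical
  let q : Polynomial ℕ := 4 * (Polynomial.X + 1) * (Polynomial.X + 1) * (Polynomial.X + 1)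
  have hq : ∀ m, q.eval m = 4 * (m + 1) * (m + 1) * (m + 1) := fun m => by simp [q]
  let Bad : List Bool → Bool := fun y =>
    decide (∃ z : List Bool, z.length ≤ q.eval y.length ∧ badR cn (y, z) = true)
  have h1 : Bad ∈ N68a2faeb.NP := mem_NP_of_PT q (badR cn) (pt_badR cn) fun y => by simp [Bad]
  have h2 : Badᶜ ∈ N68a2faeb.NP := by
    have : Bad ∈ N68a2faeb.coNP := h ▸ h1
    exact this
  refine np_of_exists h2 (f := fun p => delim p.1 ++ p.2)
    (pt_delim_append (by fun_prop) (by fun_prop)) q fun x => ?_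
  rw [hL, lang_iff_outer, hq]
  refine exists_congr fun w => and_congr_right fun _ => ?_
  simp only [Bad, badR, Pi.compl_apply, Bool.compl_eq_bnot, Bool.not_eq_true', split_delim,
    decide_eq_false_iff_not, not_exists, not_and, Bool.or_eq_true, decide_eq_true_eq, not_or,
    not_not]
  constructor
  · rintro ⟨h3, h4⟩ z _
    exact ⟨h3, fun h5 => not_inner_of_viol h5 h4⟩
  · intro h3
    have h4 := (h3 [] (by simp)).1
    refine ⟨h4, ?_⟩
    by_contra h5
    obtain ⟨z, hz, h6⟩ := viol_of_not_inner h4.lt h5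
    refine (h3 z ?_).2 h6
    rw [hz, ← hq]
    exact eval_mono q (by simp; omega)

theorem langDisc_mem_iff : langDisc ∈ N68a2faeb.NP ↔ N68a2faeb.NP = N68a2faeb.coNP :=
  ⟨np_eq_conp_of_mem langDisc_iff, mem_np_of_eq langDisc_iff⟩

theorem langCdisc_mem_iff : langCdisc ∈ N68a2faeb.NP ↔ N68a2faeb.NP = N68a2faeb.coNP :=
  ⟨np_eq_conp_of_mem langCdisc_iff, mem_np_of_eq langCdisc_iff⟩

end Pool.Agent.MP_e16607_lc
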