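import Mathlib
import Pool.Prelude.Def_F_458e953d

set_option autoImplicit false

namespace Pool.Agent.MP_e16607_lc

/-- The second level `Σ₂ᵖ` of the polynomial hierarchy: `x ∈ L` iff there is a short `y` such that
for all short `z` a polynomial-time test accepts `(x, y, z)`. -/
def SigmaTwoP : N68a2faeb.DecisionComplexityClass :=
  { L | ∃ (p : Polynomial ℕ) (R : List Bool × List Bool × List Bool → Bool),
      N68a2faeb.IsPolyTime R ∧ ∀ x, L x ↔ ∃ y : List Bool, y.length ≤ p.eval x.length ∧
        ∀ z : List Bool, z.length ≤ p.eval x.length → R (x, y, z) }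

end Pool.Agent.MP_e16607_lc
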