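import Pool.Agent.Mg.F2e8011.G06f54b
import Pool.Agent.MP_e16607_lc.Sig2Defs

set_option autoImplicit false

section

open Finset

namespace Pool.Agent.MP_e16607_lc.S2

/-- Columns that may share a colour across layers. -/
def Cp (N m v w : ℕ) : Prop :=
  v = w ∨ (N ≤ w ∧ w < N + 2 * m ∧ v = N + 2 * m + (w - N) / 2) ∨
    (N ≤ v ∧ v < N + 2 * m ∧ w = N + 2 * m + (v - N) / 2)

/-- Adjacency inside a layer. -/
def AL (A : ℕ → ℕ → Prop) (N m v w : ℕ) : Prop :=
  v < N + 2 * m ∧ w < N + 2 * m ∧ (A v w ∨ (N ≤ v ∧ N ≤ w ∧ (v - N) / 2 = (w - N) / 2))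

/-- Adjacency in the layered graph with choice gadgets and a universal vertex. -/
def AH (A : ℕ → ℕ → Prop) (N m W a b : ℕ) : Prop :=
  a ≠ b ∧ (a = (2 * W + 1) * W ∨ b = (2 * W + 1) * W ∨
    (¬ Cp N m (a % W) (b % W) ∧ (a / W ≠ b / W ∨ AL A N m (a % W) (b % W))))

/-- The vertex set selected by the choices `y`. -/
def SY (N m : ℕ) (y : ℕ → Bool) : Finset ℕ :=
  range N ∪ (range m).image fun i => N + 2 * i + cond (y i) 1 0

lemma mem_SY {N m : ℕ} {y : ℕ → Bool} {v : ℕ} : v ∈ SY N m y ↔
    v < N ∨ ∃ i < m, v = N + 2 * i + cond (y i) 1 0 := by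
  simp only [SY, mem_union, mem_range, mem_image, eq_comm]

lemma cond_le (b : Bool) : cond b 1 0 ≤ 1 := by cases b <;> simp

lemma SY_lt {N m : ℕ} {y : ℕ → Bool} {v : ℕ} (h : v ∈ SY N m y) : v < N + 2 * m := by
  rcases mem_SY.1 h with h | ⟨i, hi, rfl⟩
  · omega
  · have := cond_le (y i)
    omega

lemma card_SY (N m : ℕ) (y : ℕ → Bool) : (SY N m y).card = N + m := by
  rw [SY, card_union_of_disjoint, card_range, card_image_of_injOn, card_range]
  · intro i _ j _ h
    have := cond_le (y i)
    have := cond_le (y j)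
    dsimp only at h
    omega
  · rw [disjoint_left]
    intro v hv h
    obtain ⟨i, -, rfl⟩ := mem_image.1 h
    have := mem_range.1 hv
    omega

lemma SY_uniq {N m : ℕ} {y : ℕ → Bool} {v w : ℕ} (hv : v ∈ SY N m y) (hw : w ∈ SY N m y)
    (h1 : N ≤ v) (h2 : N ≤ w) (h : (v - N) / 2 = (w - N) / 2) : v = w := by
  rcases mem_SY.1 hv with hv | ⟨i, -, rfl⟩
  · omega
  rcases mem_SY.1 hw with hw | ⟨j, -, rfl⟩
  · omega
  have := cond_le (y i)
  have := cond_le (y j)
  obtain rfl : i = j := by omega
  rfl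

/-- The colouring attached to the choices `y`. -/
def cy (N m W : ℕ) (y : ℕ → Bool) (a : ℕ) : ℕ :=
  if a = (2 * W + 1) * W then N + 2 * m else if a % W < N + 2 * m then a % W else
    N + 2 * (a % W - N - 2 * m) + (1 - cond (y (a % W - N - 2 * m)) 1 0)

lemma cy_lt {N m W : ℕ} (hW : W = N + 3 * m) (h0 : 0 < W) (y : ℕ → Bool) {a : ℕ}
    (ha : a ≠ (2 * W + 1) * W) : cy N m W y a < N + 2 * m := by
  have h1 := Nat.mod_lt a h0
  simp only [cy, if_neg ha]
  split_ifs <;> omega

lemma prp_cy (A : ℕ → ℕ → Prop) {N m W : ℕ} (hW : W = N + 3 * m) (h0 : 0 < W) (y : ℕ → Bool)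
    (S : Finset ℕ) : Prp (AH A N m W) S (cy N m W y) := by
  rintro a - b - ⟨hab, h⟩
  by_cases ha : a = (2 * W + 1) * W
  · have := cy_lt hW h0 y (a := b) (by omega)
    rw [cy, if_pos ha]
    omega
  by_cases hb : b = (2 * W + 1) * W
  · have := cy_lt hW h0 y ha
    rw [cy.eq_1 N m W y b, if_pos hb]
    omega
  have h1 := Nat.mod_lt a h0
  have h2 := Nat.mod_lt b h0
  obtain ⟨h3, -⟩ := (h.resolve_left ha).resolve_left hb
  simp only [cy, if_neg ha, if_neg hb]
  simp only [Cp] at h3
  split_ifs <;> omega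

lemma cy_mod {N m W : ℕ} {y : ℕ → Bool} {a : ℕ} (ha : a ≠ (2 * W + 1) * W)
    (h : cy N m W y a ∈ SY N m y) : a % W = cy N m W y a := by
  simp only [cy, if_neg ha] at h ⊢
  split_ifs at h ⊢ with h1
  · rfl
  · exfalso
    rcases mem_SY.1 h with h | ⟨i, -, h⟩
    · omega
    · have h2 := cond_le (y i)
      have h3 := cond_le (y (a % W - N - 2 * m))
      have h4 : a % W - N - 2 * m = i := by omega
      rw [h4] at h
      omega

lemma low_of_not_col {A : ℕ → ℕ → Prop} (hirr : ∀ a, ¬ A a a) {N m W q k : ℕ}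
    (hW : W = N + 3 * m) (h0 : 0 < W) (hk : k + q + 1 = N + 2 * m) {y : ℕ → Bool}
    (h : ¬ Col A (SY N m y) q) (cn : Bool) : Low cn (AH A N m W) ((2 * W + 1) * W + 1) k := by
  classical
  refine ⟨cy N m W y, prp_cy A hW h0 y _, fun S _ _ j ⟨c, hc1, hc2⟩ => ?_⟩
  by_contra hlt
  push Not at hlt
  apply h
  set u := (2 * W + 1) * W with hu
  set R := (S.erase u).image (cy N m W y) with hR
  have hrep : ∀ i, ∃ a, i ∈ R → a ∈ S ∧ a ≠ u ∧ cy N m W y a = i := by
    intro i
    by_cases hi : i ∈ R
    · obtain ⟨a, ha, rfl⟩ := mem_image.1 hi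
      exact ⟨a, fun _ => ⟨mem_of_mem_erase ha, ne_of_mem_erase ha, rfl⟩⟩
    · exact ⟨0, fun h => absurd h hi⟩
  choose rep hrep using hrep
  set U : Finset ℕ := if u ∈ S then (range j).erase (c u) else range j with hU
  have hRN : R ⊆ range (N + 2 * m) := fun i hi => by
    obtain ⟨a, ha, rfl⟩ := mem_image.1 hi
    exact mem_range.2 (cy_lt hW h0 y (ne_of_mem_erase ha))
  have hcard : U.card + (S.image (cy N m W y)).card ≤ j + R.card := by
    by_cases hus : u ∈ S
    · have h1 : S.image (cy N m W y) ⊆ insert (cy N m W y u) R := by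
        intro x hx
        obtain ⟨a, ha, rfl⟩ := mem_image.1 hx
        by_cases hau : a = u
        · rw [hau]; exact mem_insert_self _ _
        · exact mem_insert_of_mem (mem_image.2 ⟨a, mem_erase.2 ⟨hau, ha⟩, rfl⟩)
      have h2 := (card_le_card h1).trans (card_insert_le _ _)
      have h3 := hc1 u hus
      rw [hU, if_pos hus, card_erase_of_mem (mem_range.2 h3), card_range]
      omega
    · rw [hU, if_neg hus, card_range, hR, erase_eq_of_notMem hus]
  let d : ℕ → ℕ := fun i => if i ∈ R then 2 * c (rep i) else 2 * i + 1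
  refine col_of_card (c := d) (fun a ha' b hb' hab => ?_) ?_
  · have hne : a ≠ b := fun h => hirr a (h ▸ hab)
    simp only [d]
    split_ifs with ha hb hb
    · obtain ⟨a1, a2, a3⟩ := hrep a ha
      obtain ⟨b1, b2, b3⟩ := hrep b hb
      have a4 : rep a % W = a := (cy_mod a2 (a3.symm ▸ ha')).trans a3
      have b4 : rep b % W = b := (cy_mod b2 (b3.symm ▸ hb')).trans b3
      have a5 := SY_lt ha'
      have b5 := SY_lt hb'
      have := hc2 _ a1 _ b1 ⟨fun h => hne (by rw [← a3, ← b3, h]),
        Or.inr (Or.inr ⟨by rw [a4, b4, Cp]; omega,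
          Or.inr (by rw [a4, b4]; exact ⟨a5, b5, Or.inl hab⟩)⟩)⟩
      omega
    all_goals omega
  · have h1 : (SY N m y).image d ⊆ U.image (2 * ·) ∪ (SY N m y \ R).image (2 * · + 1) := by
      intro x hx
      obtain ⟨i, hi, rfl⟩ := mem_image.1 hx
      by_cases hiR : i ∈ R
      · refine mem_union_left _ (mem_image.2 ⟨c (rep i), ?_, by simp [d, hiR]⟩)
        obtain ⟨a1, a2, -⟩ := hrep i hiR
        have h3 := mem_range.2 (hc1 _ a1)
        rw [hU]
        split_ifs with hus
        · exact mem_erase.2 ⟨hc2 _ a1 _ hus ⟨a2, Or.inr (Or.inl hu)⟩, h3⟩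
        · exact h3
      · exact mem_union_right _ (mem_image.2 ⟨i, mem_sdiff.2 ⟨hi, hiR⟩, by simp [d, hiR]⟩)
    have h2 := (card_le_card h1).trans (card_union_le _ _)
    have h3 := card_image_le (s := U) (f := (2 * ·))
    have h4 := card_image_le (s := SY N m y \ R) (f := (2 * · + 1))
    have h5 := card_sdiff_add_card (SY N m y) R
    have h6 : (SY N m y ∪ R).card ≤ N + 2 * m := by
      rw [← card_range (N + 2 * m)]
      exact card_le_card (union_subset (fun v hv => mem_range.2 (SY_lt hv)) hRN)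
    omega

lemma conn_of_mem {A : ℕ → ℕ → Prop} {N m W : ℕ} {S : Finset ℕ} (h : (2 * W + 1) * W ∈ S) :
    Conn (AH A N m W) S := by
  refine ⟨_, h, fun a => if a = (2 * W + 1) * W then 0 else 1, fun v _ hv => ⟨_, h, ?_, ?_⟩⟩
  · exact ⟨hv.symm, Or.inl rfl⟩
  · simp [hv]

lemma not_low_of_col {A : ℕ → ℕ → Prop} {N m W q k : ℕ} (hW : W = N + 3 * m) (hq : 0 < q)
    (hk : k + q + 1 = N + 2 * m) (h : ∀ y, Col A (SY N m y) q) (cn : Bool) :
    ¬ Low cn (AH A N m W) ((2 * W + 1) * W + 1) k := by
  classical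
  rintro ⟨c, hc, hlow⟩
  have h0 : 0 < W := by omega
  set u := (2 * W + 1) * W with hu
  have hmem : ∀ {t i : ℕ}, t < 2 * W + 1 → i < W → t * W + i ∈ range (u + 1) := fun ht hi =>
    mem_range.2 ((layer_lt ht hi).trans (Nat.lt_succ_self _))
  have humem : u ∈ range (u + 1) := self_mem_range_succ u
  have hadj : ∀ {t i t' i' : ℕ}, t < 2 * W + 1 → i < W → t' < 2 * W + 1 → i' < W →
      ¬ Cp N m i i' → (t ≠ t' ∨ AL A N m i i') → c (t * W + i) ≠ c (t' * W + i') := by
    intro t i t' i' ht hi ht' hi' h1 h2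
    refine hc _ (hmem ht hi) _ (hmem ht' hi') ⟨fun h => h1 (Or.inl ?_), Or.inr (Or.inr ?_)⟩
    · rw [← layer_mod (t := t) hi, h, layer_mod hi']
    · rw [layer_mod hi, layer_mod hi', layer_div hi, layer_div hi']
      exact ⟨h1, h2⟩
  by_cases h1 : ∃ t < 2 * W + 1, ∀ v < W, ∀ w < W, c (t * W + v) = c (t * W + w) → Cp N m v w
  · obtain ⟨t, ht, hcp⟩ := h1
    set y : ℕ → Bool := fun i => decide (c (t * W + (N + 2 * m + i)) = c (t * W + (N + 2 * i)))
      with hy
    obtain ⟨cF, hF1, hF2⟩ := h y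
    set T := SY N m y ∪ Ico (N + 2 * m) W with hT
    have hTlt : ∀ v ∈ T, v < W := fun v hv => by
      rcases mem_union.1 hv with hv | hv
      · have := SY_lt hv
        omega
      · exact (mem_Ico.1 hv).2
    have hTS : ∀ v ∈ T, v < N + 2 * m → v ∈ SY N m y := fun v hv h =>
      (mem_union.1 hv).resolve_right fun h' => by have := (mem_Ico.1 h').1; omega
    have hTc : T.card = N + 2 * m := by
      rw [hT, card_union_of_disjoint, card_SY, Nat.card_Ico]
      · omega
      · rw [disjoint_left]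
        intro v hv h
        have := SY_lt hv
        have := (mem_Ico.1 h).1
        omega
    have hj : ∀ w ∈ T, N ≤ w → w < N + 2 * m →
        c (t * W + (N + 2 * m + (w - N) / 2)) ≠ c (t * W + w) := by
      intro w hw h2 h3 h4
      rcases mem_SY.1 (hTS w hw h3) with h5 | ⟨i, hi, h5⟩
      · omega
      have h6 := cond_le (y i)
      rw [show (w - N) / 2 = i by omega] at h4
      by_cases h7 : c (t * W + (N + 2 * m + i)) = c (t * W + (N + 2 * i))
      · have h8 : y i = true := by simp [hy, h7]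
        rw [h8] at h5
        simp only [cond_true] at h5
        refine hadj (i := w) (i' := N + 2 * i) ht (by omega) ht (by omega)
          (by rw [Cp]; omega) (Or.inr ⟨by omega, by omega, Or.inr (by omega)⟩) (h4.symm.trans h7)
      · have h8 : y i = false := by simp [hy, h7]
        rw [h8] at h5
        simp only [cond_false, add_zero] at h5
        exact h7 (h5 ▸ h4)
    have hinj : Set.InjOn (fun i => c (t * W + i)) T := by
      intro v hv w hw h2
      rcases hcp v (hTlt v hv) w (hTlt w hw) h2 with h3 | ⟨h3, h4, h5⟩ | ⟨h3, h4, h5⟩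
      · exact h3
      · exact absurd (h5 ▸ h2) (hj w hw h3 h4)
      · exact absurd (h5 ▸ h2.symm) (hj v hv h3 h4)
    set S := insert u (T.image (t * W + ·)) with hS
    have hSsub : S ⊆ range (u + 1) := by
      intro a ha
      rcases mem_insert.1 ha with rfl | ha
      · exact humem
      · obtain ⟨i, hi, rfl⟩ := mem_image.1 ha
        exact hmem ht (hTlt i hi)
    have hcol : Col (AH A N m W) S (q + 1) := by
      have hlt : ∀ a ∈ S, a ≠ u → (if a % W < N + 2 * m then cF (a % W) else 0) < q := by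
        intro a ha hau
        obtain ⟨i, hi, rfl⟩ := mem_image.1 ((mem_insert.1 ha).resolve_left hau)
        rw [layer_mod (hTlt i hi)]
        split_ifs with h2
        · exact hF1 _ (hTS i hi h2)
        · exact hq
      refine ⟨fun a => if a = u then q else if a % W < N + 2 * m then cF (a % W) else 0,
        fun a ha => ?_, fun a ha b hb hab => ?_⟩
      · by_cases h2 : a = u
        · simp [h2]
        · have := hlt a ha h2
          simp only [if_neg h2]
          omega
      · obtain ⟨hne, hab⟩ := hab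
        by_cases h2 : a = u
        · have := hlt b hb (by omega)
          simp only [if_pos h2, if_neg (show b ≠ u by omega)]
          omega
        by_cases h3 : b = u
        · have := hlt a ha h2
          simp only [if_pos h3, if_neg h2]
          omega
        obtain ⟨i, hi, rfl⟩ := mem_image.1 ((mem_insert.1 ha).resolve_left h2)
        obtain ⟨l, hl, rfl⟩ := mem_image.1 ((mem_insert.1 hb).resolve_left h3)
        obtain ⟨h4, h5⟩ := (hab.resolve_left h2).resolve_left h3
        simp only [if_neg h2, if_neg h3]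
        rw [layer_mod (hTlt i hi), layer_mod (hTlt l hl)] at h4 h5 ⊢
        rw [layer_div (hTlt i hi), layer_div (hTlt l hl)] at h5
        obtain ⟨h6, h7, h8 | ⟨h8, h9, h10⟩⟩ := h5.resolve_left (fun h => h rfl)
        · rw [if_pos h6, if_pos h7]
          exact hF2 _ (hTS i hi h6) _ (hTS l hl h7) h8
        · exact absurd (Or.inl (SY_uniq (hTS i hi h6) (hTS l hl h7) h8 h9 h10)) h4
    have h2 := hlow S hSsub (fun _ => conn_of_mem (mem_insert_self _ _)) _ hcol
    have h3 : c u ∉ (T.image (t * W + ·)).image c := by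
      intro hh
      obtain ⟨a, ha, hca⟩ := mem_image.1 hh
      obtain ⟨i, hi, rfl⟩ := mem_image.1 ha
      have := layer_lt ht (hTlt i hi)
      exact hc _ (hmem ht (hTlt i hi)) _ humem ⟨this.ne, Or.inr (Or.inl hu)⟩ hca
    rw [hS, image_insert, card_insert_of_notMem h3, image_image,
      card_image_of_injOn (f := c ∘ fun x => t * W + x) hinj, hTc] at h2
    omega
  · push Not at h1
    have h2 : ∀ t, ∃ i, t < 2 * W + 1 → i < W ∧ ∃ i' < W,
        c (t * W + i) = c (t * W + i') ∧ ¬ Cp N m i i' := by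
      intro t
      by_cases ht : t < 2 * W + 1
      · obtain ⟨i, hi, i', hi', h3, h4⟩ := h1 t ht
        exact ⟨i, fun _ => ⟨hi, i', hi', h3, h4⟩⟩
      · exact ⟨0, fun h => absurd h ht⟩
    choose ι hι using h2
    have hinj : Set.InjOn (fun t => c (t * W + ι t)) (range (2 * W + 1)) := by
      intro t ht t' ht' h3
      by_contra hne
      have ht := mem_range.1 ht
      have ht' := mem_range.1 ht'
      obtain ⟨a1, i', a2, a3, a4⟩ := hι t ht
      obtain ⟨b1, -⟩ := hι t' ht'
      have c1 : Cp N m (ι t) (ι t') := by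
        by_contra h4
        exact hadj ht a1 ht' b1 h4 (Or.inl hne) h3
      have c2 : Cp N m i' (ι t') := by
        by_contra h4
        exact hadj ht a2 ht' b1 h4 (Or.inl hne) (a3.symm.trans h3)
      refine hadj ht a1 ht a2 a4 (Or.inr ?_) a3
      simp only [Cp] at c1 c2 a4
      exact ⟨by omega, by omega, Or.inr (by omega)⟩
    have h3 : (range (2 * W + 1)).image (fun t => c (t * W + ι t)) ⊆ (range (u + 1)).image c := by
      intro x hx
      obtain ⟨t, ht, rfl⟩ := mem_image.1 hx
      exact mem_image_of_mem c (hmem (mem_range.1 ht) (hι t (mem_range.1 ht)).1)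
    have h4 := card_le_card h3
    rw [card_image_of_injOn hinj, card_range] at h4
    have hcol : Col (AH A N m W) (range (u + 1)) (N + 2 * m + 1) := by
      refine ⟨cy N m W fun _ => true, fun a _ => ?_, prp_cy A hW h0 _ _⟩
      by_cases ha : a = (2 * W + 1) * W
      · rw [cy, if_pos ha]; omega
      · exact (cy_lt hW h0 _ ha).trans (Nat.lt_succ_self _)
    have h5 := hlow _ Subset.rfl (fun _ => conn_of_mem humem) _ hcol
    omega

theorem low_iff {A : ℕ → ℕ → Prop} (hirr : ∀ a, ¬ A a a) {N m W q k : ℕ} (hW : W = N + 3 * m)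
    (hq : 0 < q) (hk : k + q + 1 = N + 2 * m) (cn : Bool) :
    Low cn (AH A N m W) ((2 * W + 1) * W + 1) k ↔ ∃ y, ¬ Col A (SY N m y) q := by
  refine ⟨fun h => ?_, fun ⟨y, h⟩ => low_of_not_col hirr hW (by omega) hk h cn⟩
  by_contra h1
  push Not at h1
  exact not_low_of_col hW hq hk h1 cn h

end Pool.Agent.MP_e16607_lc.S2

end

section

open Finset

namespace Pool.Agent.MP_e16607_lc.S2

lemma col_of_sat {φ : List (List (ℕ × Bool))} {n : ℕ} (hn : ∀ C ∈ φ, ∀ l ∈ C, l.1 < n)
    {S : Finset ℕ} {s : ℕ → Bool}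
    (hs : ∀ j, 3 * n + 1 + j ∈ S → ∃ l ∈ φ.getD j [], s l.1 = l.2) : Col (AF φ n) S (n + 1) := by
  have h1 : ∀ j, ∃ i, 3 * n + 1 + j ∈ S → i < n ∧ (i, s i) ∈ φ.getD j [] := by
    intro j
    by_cases hj : 3 * n + 1 + j ∈ S
    · obtain ⟨l, hl, h⟩ := hs _ hj
      refine ⟨l.1, fun _ => ⟨?_, by rw [h]; exact hl⟩⟩
      by_cases h2 : j < φ.length
      · rw [List.getD_eq_getElem _ _ h2] at hl
        exact hn _ (List.getElem_mem h2) l hl
      · rw [List.getD_eq_default _ _ (not_lt.1 h2)] at hl
        simp at hl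
    · exact ⟨0, fun h => absurd h hj⟩
  choose ι hι using h1
  have hι' : ∀ b ∈ S, 3 * n < b → ι (b - 3 * n - 1) < n ∧
      (ι (b - 3 * n - 1), s (ι (b - 3 * n - 1))) ∈ φ.getD (b - 3 * n - 1) [] := fun b hb h =>
    hι _ (by rwa [show 3 * n + 1 + (b - 3 * n - 1) = b by omega])
  let c : ℕ → ℕ := fun a => if a ≤ n then a else if a ≤ 3 * n then
    (if s ((a - n - 1) / 2) = decide ((a - n - 1) % 2 = 1) then (a - n - 1) / 2 + 1 else 0)
    else ι (a - 3 * n - 1) + 1
  have key : ∀ a ∈ S, ∀ b ∈ S, BF φ n a b → c a ≠ c b := by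
    intro a ha b hb hab
    rcases hab with ⟨h1, h2, h3⟩ | ⟨h1, h2, h3, h4, h5⟩ | ⟨h1, h2, h3, h4, h5, h6⟩ | ⟨h1, h2⟩ |
      ⟨h1, h2, h3, h4⟩
    · simp only [c, if_pos h1, if_pos h2]; exact h3
    · simp only [c, if_pos h2, if_neg (not_le.2 h3), if_pos h4]
      split_ifs <;> omega
    · simp only [c, if_neg (not_le.2 h1), if_pos h2, if_neg (not_le.2 h3), if_pos h4, ← h6]
      have : decide ((b - n - 1) % 2 = 1) = !decide ((a - n - 1) % 2 = 1) := by
        rcases Nat.mod_two_eq_zero_or_one (a - n - 1) with h | h <;>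
        rcases Nat.mod_two_eq_zero_or_one (b - n - 1) with h' | h' <;>
        first | omega | simp [h, h']
      rw [this]
      cases s ((a - n - 1) / 2) <;> cases decide ((a - n - 1) % 2 = 1) <;> simp
    · subst h1
      simp only [c, if_pos (Nat.zero_le n), if_neg (show ¬ b ≤ n by omega), if_neg (not_le.2 h2)]
      omega
    · simp only [c, if_neg (not_le.2 h1), if_pos h2, if_neg (show ¬ b ≤ n by omega),
        if_neg (not_le.2 h3)]
      split_ifs with h5
      · intro h6
        apply h4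
        have := (hι' b hb h3).2
        rw [← h5, show (a - n - 1) / 2 = ι (b - 3 * n - 1) by omega]
        exact this
      · omega
  refine ⟨c, fun a ha => ?_, fun a ha b hb hab => ?_⟩
  · simp only [c]
    split_ifs with h1 h2 h3
    · omega
    · omega
    · omega
    · have := (hι' a ha (by omega)).1
      omega
  · rcases hab with hab | hab
    · exact key a ha b hb hab
    · exact (key b hb a ha hab).symm

lemma sat_of_col {φ : List (List (ℕ × Bool))} {n : ℕ} {S : Finset ℕ}
    (hS : ∀ a, a ≤ 3 * n → a ∈ S) (h : Col (AF φ n) S (n + 1)) :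
    ∃ s : ℕ → Bool, ∀ j, 3 * n + 1 + j ∈ S → ∃ l ∈ φ.getD j [], s l.1 = l.2 := by
  classical
  obtain ⟨c, h1, h2⟩ := h
  have hB : ∀ a b, a ∈ S → b ∈ S → BF φ n a b → c a ≠ c b :=
    fun a b ha hb hab => h2 a ha b hb (Or.inl hab)
  have hsurj : ∀ v ∈ S, ∃ a ≤ n, c a = c v := by
    intro v hv
    have := surjOn_of_injOn_of_card_le (s := range (n + 1)) (t := range (n + 1)) c
      (fun a ha => by
        have := mem_range.1 ha
        exact mem_range.2 (h1 a (hS a (by omega))))
      (fun a ha b hb hab => by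
        have ha := mem_range.1 ha
        have hb := mem_range.1 hb
        by_contra hne
        exact hB a b (hS a (by omega)) (hS b (by omega)) (Or.inl ⟨by omega, by omega, hne⟩) hab)
      le_rfl (mem_range.2 (h1 v hv))
    obtain ⟨a, ha, hca⟩ := this
    exact ⟨a, Nat.lt_succ_iff.1 (mem_range.1 ha), hca⟩
  have hlit : ∀ i < n, ∀ e < 2, c (n + 1 + 2 * i + e) = c 0 ∨ c (n + 1 + 2 * i + e) = c (i + 1) := by
    intro i hi e he
    obtain ⟨a, ha, hca⟩ := hsurj (n + 1 + 2 * i + e) (hS _ (by omega))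
    by_cases h0 : a = 0
    · left; rw [← hca, h0]
    · by_cases h3 : a = i + 1
      · right; rw [← hca, h3]
      · exact absurd hca (hB _ _ (hS _ (by omega)) (hS _ (by omega))
          (Or.inr (Or.inl ⟨by omega, ha, by omega, by omega, by omega⟩)))
  refine ⟨fun i => decide (c (n + 1 + 2 * i + 1) = c (i + 1)), fun j hj => ?_⟩
  obtain ⟨a, ha, hca⟩ := hsurj (3 * n + 1 + j) hj
  have h0 : a ≠ 0 := by
    rintro rfl
    exact hB _ _ (hS _ (by omega)) hj (Or.inr (Or.inr (Or.inr (Or.inl ⟨rfl, by omega⟩)))) hca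
  obtain ⟨i, rfl⟩ : ∃ i, a = i + 1 := ⟨a - 1, by omega⟩
  have hin : ∀ e < 2, c (n + 1 + 2 * i + e) = c (i + 1) → (i, decide (e = 1)) ∈ φ.getD j [] := by
    intro e he hce
    by_contra hnot
    refine hB (n + 1 + 2 * i + e) (3 * n + 1 + j) (hS _ (by omega)) hj
      (Or.inr (Or.inr (Or.inr (Or.inr ⟨by omega, by omega, by omega, ?_⟩)))) (hce.trans hca)
    rw [show (n + 1 + 2 * i + e - n - 1) / 2 = i by omega,
      show (n + 1 + 2 * i + e - n - 1) % 2 = e by omega,
      show 3 * n + 1 + j - 3 * n - 1 = j by omega]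
    exact hnot
  by_cases h3 : c (n + 1 + 2 * i + 1) = c (i + 1)
  · exact ⟨_, hin 1 (by omega) h3, by simp [h3]⟩
  · have h4 := (hlit i (by omega) 1 (by omega)).resolve_right h3
    have h5 := hB (n + 1 + 2 * i + 0) (n + 1 + 2 * i + 1) (hS _ (by omega)) (hS _ (by omega))
      (Or.inr (Or.inr (Or.inl ⟨by omega, by omega, by omega, by omega, by omega, by omega⟩)))
    have h6 := (hlit i (by omega) 0 (by omega)).resolve_left (fun h => h5 (h.trans h4.symm))
    exact ⟨_, hin 0 (by omega) h6, by simp [h3]⟩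

/-- The formula with its optional unit clauses. -/
def ext (φ : List (List (ℕ × Bool))) (vs : List ℕ) : List (List (ℕ × Bool)) :=
  φ ++ vs.map fun v => [(v, true)]

/-- Satisfiability with one variable of each pair pinned to true. -/
def PSat (φ : List (List (ℕ × Bool))) (vs : List ℕ) (m : ℕ) (y : ℕ → Bool) : Prop :=
  ∃ s : ℕ → Bool, (∀ C ∈ φ, ∃ l ∈ C, s l.1 = l.2) ∧
    ∀ i < m, s (vs.getD (2 * i + cond (y i) 1 0) 0) = true

lemma ext_getD_lt {φ : List (List (ℕ × Bool))} {vs : List ℕ} {j : ℕ} (hj : j < φ.length) :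
    (ext φ vs).getD j [] = φ[j] := by
  simp [ext, List.getD_eq_getElem?_getD, List.getElem?_append_left hj, hj]

lemma ext_getD_ge {φ : List (List (ℕ × Bool))} {vs : List ℕ} {j : ℕ} (hj : j < vs.length) :
    (ext φ vs).getD (φ.length + j) [] = [(vs.getD j 0, true)] := by
  simp [ext, List.getD_eq_getElem?_getD, hj]

lemma col_iff_psat {φ : List (List (ℕ × Bool))} {vs : List ℕ} {n m : ℕ}
    (hn : ∀ C ∈ ext φ vs, ∀ l ∈ C, l.1 < n) (hm : 2 * m ≤ vs.length) (y : ℕ → Bool) :
    Col (AF (ext φ vs) n) (SY (3 * n + 1 + φ.length) m y) (n + 1) ↔ PSat φ vs m y := by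
  constructor
  · intro h
    obtain ⟨s, hs⟩ := sat_of_col (fun a ha => mem_SY.2 (Or.inl (by omega))) h
    refine ⟨s, fun C hC => ?_, fun i hi => ?_⟩
    · obtain ⟨j, hj, rfl⟩ := List.getElem_of_mem hC
      have := hs j (mem_SY.2 (Or.inl (by omega)))
      rwa [ext_getD_lt hj] at this
    · have h1 := cond_le (y i)
      have := hs (φ.length + (2 * i + cond (y i) 1 0)) (mem_SY.2 (Or.inr ⟨i, hi, by omega⟩))
      rw [ext_getD_ge (by omega)] at this
      simpa using this
  · rintro ⟨s, h1, h2⟩
    refine col_of_sat hn (s := s) fun j hj => ?_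
    rcases mem_SY.1 hj with hj | ⟨i, hi, hj⟩
    · have h3 : j < φ.length := by omega
      rw [ext_getD_lt h3]
      exact h1 _ (List.getElem_mem h3)
    · have h3 := cond_le (y i)
      rw [show j = φ.length + (2 * i + cond (y i) 1 0) by omega, ext_getD_ge (by omega)]
      exact ⟨_, List.mem_singleton_self _, h2 i hi⟩

end Pool.Agent.MP_e16607_lc.S2

end

section

open Pool.Agent.MP_2e8011_lc Computability

namespace Pool.Agent.MP_e16607_lc.S2

instance (N m v w : ℕ) : Decidable (Cp N m v w) := by unfold Cp; infer_instance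

instance (φ : CNF) (n N m v w : ℕ) : Decidable (AL (AF φ n) N m v w) := by
  unfold AL; infer_instance

instance (φ : CNF) (n N m W a b : ℕ) : Decidable (AH (AF φ n) N m W a b) := by
  unfold AH; infer_instance

/-- The output of the reduction, from its numeric data. -/
def out (ψ : CNF) (n N m W k : ℕ) : List Bool :=
  delim (enc (mat ((2 * W + 1) * W + 1) fun a b => decide (AH (AF ψ n) N m W a b))) ++ encodeNat k

/-- The reduction. -/
def red (φ : CNF) (vs : List ℕ) (m : ℕ) : List Bool :=
  out (ext φ vs) (sz (ext φ vs) + 1) (3 * (sz (ext φ vs) + 1) + 1 + φ.length) m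
    (3 * (sz (ext φ vs) + 1) + 1 + φ.length + 3 * m) (2 * sz (ext φ vs) + 1 + φ.length + 2 * m)

section
variable {α : Type} [Enc α]

@[fun_prop] theorem pt_Cp {N m v w : α → ℕ} {i : ∀ x, Decidable (Cp (N x) (m x) (v x) (w x))}
    (hN : PT N) (hm : PT m) (hv : PT v) (hw : PT w) :
    PT (fun x => @decide (Cp (N x) (m x) (v x) (w x)) (i x)) := by
  unfold Cp
  fun_prop

@[fun_prop] theorem pt_AL {φ : α → CNF} {n N m v w : α → ℕ}
    {i : ∀ x, Decidable (AL (AF (φ x) (n x)) (N x) (m x) (v x) (w x))} (hφ : PT φ) (hn : PT n)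
    (hN : PT N) (hm : PT m) (hv : PT v) (hw : PT w) :
    PT (fun x => @decide (AL (AF (φ x) (n x)) (N x) (m x) (v x) (w x)) (i x)) := by
  unfold AL
  fun_prop

@[fun_prop] theorem pt_AH {φ : α → CNF} {n N m W a b : α → ℕ}
    {i : ∀ x, Decidable (AH (AF (φ x) (n x)) (N x) (m x) (W x) (a x) (b x))} (hφ : PT φ)
    (hn : PT n) (hN : PT N) (hm : PT m) (hW : PT W) (ha : PT a) (hb : PT b) :
    PT (fun x => @decide (AH (AF (φ x) (n x)) (N x) (m x) (W x) (a x) (b x)) (i x)) := by
  unfold AH
  fun_prop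

theorem pt_out {ψ : α → CNF} {n N m W k : α → ℕ} (hψ : PT ψ) (hn : PT n) (hN : PT N) (hm : PT m)
    (hW : PT W) (hk : PT k) : PT (fun x => out (ψ x) (n x) (N x) (m x) (W x) (k x)) := by
  refine pt_delim_append (PT.enc ?_) (pt_encodeNat hk)
  unfold mat
  fun_prop

theorem pt_red {φ : α → CNF} {vs : α → List ℕ} {m : α → ℕ} (hφ : PT φ) (hv : PT vs) (hm : PT m) :
    PT (fun x => red (φ x) (vs x) (m x)) := by
  have h : PT fun x => ext (φ x) (vs x) := by
    unfold ext
    fun_prop
  exact pt_out h (by fun_prop) (by fun_prop) hm (by fun_prop) (by fun_prop)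

end

lemma AH_symm {A : ℕ → ℕ → Prop} (hA : ∀ a b, A a b ↔ A b a) {N m W a b : ℕ}
    (h : AH A N m W a b) : AH A N m W b a := by
  obtain ⟨h1, h2 | h2 | ⟨h2, h3⟩⟩ := h
  · exact ⟨h1.symm, Or.inr (Or.inl h2)⟩
  · exact ⟨h1.symm, Or.inl h2⟩
  · refine ⟨h1.symm, Or.inr (Or.inr ⟨by simp only [Cp] at h2 ⊢; omega, ?_⟩)⟩
    rcases h3 with h3 | ⟨h3, h4, h5 | h5⟩
    · exact Or.inl h3.symm
    · exact Or.inr ⟨h4, h3, Or.inl ((hA _ _).1 h5)⟩
    · exact Or.inr ⟨h4, h3, Or.inr ⟨h5.2.1, h5.1, h5.2.2.symm⟩⟩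

theorem lang_red (cn : Bool) (φ : CNF) {vs : List ℕ} {m : ℕ} (hm : 2 * m ≤ vs.length) :
    Lang cn (red φ vs m) ↔ ∃ y, ¬ PSat φ vs m y := by
  rw [red, out, lang_code_iff]
  · simp only [decide_eq_true_eq]
    rw [low_iff (q := sz (ext φ vs) + 1 + 1) (AF_irrefl _ _) rfl (by omega) (by omega)]
    exact exists_congr fun y => not_congr
      (col_iff_psat (fun C hC l hl => (var_lt_sz hC hl).trans (Nat.lt_succ_self _)) hm y)
  · intro i _ j _
    exact decide_eq_decide.2 ⟨AH_symm (AF_symm _ _), AH_symm (AF_symm _ _)⟩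
  · intro i _
    simp [AH]

end Pool.Agent.MP_e16607_lc.S2

end

section

namespace Pool.Agent.MP_e16607_lc.S2

open Turing Pool.Agent.MP_2e8011_lc

@[fun_prop] theorem pt_take {α β : Type} [Enc α] [Enc β] [Inhabited β] {l : α → List β} {n : α → ℕ}
    (hn : PT n) (hl : PT l) : PT (fun a => (l a).take (n a)) := by
  have : PT fun a => ((l a).reverse.drop ((l a).length - n a)).reverse := by fun_prop
  refine this.congr fun a => ?_
  rw [List.reverse_drop, List.reverse_reverse, List.length_reverse]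
  by_cases h : n a ≤ (l a).length
  · rw [Nat.sub_sub_self h]
  · rw [List.take_of_length_le (by omega), List.take_of_length_le (by omega)]

section
variable {K : Type} [DecidableEq K] {Γ : K → Type} {Λ σ : Type}

lemma length_stepAux (q : TM2.Stmt Γ Λ σ) : ∀ (v : σ) (S : ∀ k, List (Γ k)) (k : K),
    ((TM2.stepAux q v S).stk k).length ≤ (S k).length + depth q := by
  induction q with
  | push j f q ih =>
    intro v S k
    refine (ih _ _ k).trans ?_
    by_cases h : k = j
    · subst h; simp [depth]; omega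
    · simp [depth, h]
  | peek j f q ih => intro v S k; exact (ih _ _ k).trans (by simp [depth])
  | pop j f q ih =>
    intro v S k
    refine (ih _ _ k).trans ?_
    by_cases h : k = j
    · subst h; simp [depth]; omega
    · simp [depth, h]
  | load f q ih => intro v S k; exact ih _ _ k
  | branch f q₁ q₂ ih₁ ih₂ =>
    intro v S k
    simp only [TM2.stepAux, depth]
    cases f v
    · exact (ih₂ _ _ k).trans (by simp)
    · exact (ih₁ _ _ k).trans (by simp)
  | goto f => intro v S k; simp [TM2.stepAux]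
  | halt => intro v S k; simp [TM2.stepAux]

lemma length_nxt_iter {m : Λ → TM2.Stmt Γ Λ σ} {d : ℕ} (hd : ∀ l, depth (m l) ≤ d)
    (c : TM2.Cfg Γ Λ σ) (k : K) (n : ℕ) :
    (((nxt m)^[n] c).stk k).length ≤ (c.stk k).length + n * d := by
  induction n with
  | zero => simp
  | succ n ih =>
    rw [Function.iterate_succ_apply']
    generalize (nxt m)^[n] c = c' at ih
    unfold nxt
    split
    · nlinarith
    · rename_i l _
      have := length_stepAux (m l) c'.var c'.stk k
      have := hd l
      nlinarith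

/-- Code of a configuration. -/
def ccode (KL : List K) (cc : Option Λ × σ → ℕ) (cs : (Σ k, Γ k) → ℕ) (c : TM2.Cfg Γ Λ σ) :
    ℕ × List (List ℕ) :=
  (cc (c.l, c.var), KL.map fun k => (c.stk k).map fun γ => cs ⟨k, γ⟩)

omit [DecidableEq K] in
lemma ccode_inj {KL : List K} (hKL : ∀ k, k ∈ KL) {cc : Option Λ × σ → ℕ} (hcc : Function.Injective cc)
    {cs : (Σ k, Γ k) → ℕ} {A : Set (Σ k, Γ k)} (hcs : Set.InjOn cs A) {c c' : TM2.Cfg Γ Λ σ}
    (h : Over A c.stk) (h' : Over A c'.stk) (e : ccode KL cc cs c = ccode KL cc cs c') : c = c' := by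
  obtain ⟨l, v, S⟩ := c
  obtain ⟨l', v', S'⟩ := c'
  simp only [ccode, Prod.mk.injEq, List.map_inj_left] at e
  obtain ⟨rfl, rfl⟩ := Prod.mk.inj (hcc e.1)
  congr 1
  funext k
  have e2 := e.2 k (hKL k)
  have h1 := h k
  have h2 := h' k
  simp only at h1 h2
  generalize S k = a at *
  generalize S' k = b at *
  induction a generalizing b with
  | nil => cases b <;> simp_all
  | cons x a ih =>
    cases b with
    | nil => simp at e2
    | cons y b =>
      simp only [List.map_cons, List.cons.injEq] at e2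
      have := hcs (h1 x List.mem_cons_self) (h2 y List.mem_cons_self) e2.1
      obtain rfl : x = y := by simpa using this
      rw [ih (fun γ hγ => h1 γ (List.mem_cons_of_mem _ hγ)) b
        (fun γ hγ => h2 γ (List.mem_cons_of_mem _ hγ)) e2.2]

/-- One step on codes, by table lookup. -/
def cstep (T : List ((ℕ × List (List ℕ)) × (ℕ × List (List ℕ)))) (n d : ℕ) (x : ℕ × List (List ℕ)) :
    ℕ × List (List ℕ) :=
  (((T.filter fun e => decide (e.1 = (x.1, x.2.map (List.take d)))).headD default).2.1,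
    (List.range n).map fun j =>
      ((T.filter fun e => decide (e.1 = (x.1, x.2.map (List.take d)))).headD default).2.2.getD j []
        ++ (x.2.getD j []).drop d)

lemma pt_cstep (T : List ((ℕ × List (List ℕ)) × (ℕ × List (List ℕ)))) (n d : ℕ) :
    PT (cstep T n d) := by
  have h0 : PT fun x : ℕ × List (List ℕ) => x.2.map (List.take d) :=
    PT.map (f := fun _ l => List.take d l) (by fun_prop) (by fun_prop)
  have h1 : PT fun x : ℕ × List (List ℕ) =>
      ((T.filter fun e => decide (e.1 = (x.1, x.2.map (List.take d)))).headD default).2 := by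
    refine PT.snd (PT.headD (PT.filter (PT.eq (by fun_prop) (PT.prodMk (by fun_prop) ?_))
      (PT.const _)) (PT.const _))
    exact h0.comp (f := fun p : (ℕ × List (List ℕ)) × _ => p.1) (by fun_prop)
  unfold cstep
  refine PT.prodMk h1.fst (PT.map (PT.append (PT.getD ?_ (by fun_prop) (by fun_prop)) (by fun_prop))
    (by fun_prop))
  exact h1.snd.comp (f := fun p : (ℕ × List (List ℕ)) × ℕ => p.1) (by fun_prop)

lemma cstep_ccode {KL : List K} (hKL : ∀ k, k ∈ KL) {cc : Option Λ × σ → ℕ}
    (hcc : Function.Injective cc) {cs : (Σ k, Γ k) → ℕ} {A : Set (Σ k, Γ k)} (hcs : Set.InjOn cs A)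
    {m : Λ → TM2.Stmt Γ Λ σ} {d : ℕ} (hd : ∀ l, depth (m l) ≤ d) {TL : List (TM2.Cfg Γ Λ σ)}
    (hTL : ∀ c, c ∈ TL ↔ (∀ k, (c.stk k).length ≤ d) ∧ Over A c.stk) {c : TM2.Cfg Γ Λ σ}
    (h : Over A c.stk) :
    cstep (TL.map fun w => (ccode KL cc cs w, ccode KL cc cs (nxt m w))) KL.length d
      (ccode KL cc cs c) = ccode KL cc cs (nxt m c) := by
  have hw : win d c ∈ TL := (hTL _).2 ⟨fun k => by simp [win], fun k γ hγ =>
    h k γ (List.mem_of_mem_take hγ)⟩
  have e1 : ((ccode KL cc cs c).1, (ccode KL cc cs c).2.map (List.take d)) =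
      ccode KL cc cs (win d c) := by
    simp [ccode, win, List.map_take]
  have e2 : (((TL.map fun w => (ccode KL cc cs w, ccode KL cc cs (nxt m w))).filter
      fun e => decide (e.1 = ccode KL cc cs (win d c))).headD default).2 =
      ccode KL cc cs (nxt m (win d c)) := by
    have a1 : ∀ e ∈ (TL.map fun w => (ccode KL cc cs w, ccode KL cc cs (nxt m w))).filter
        fun e => decide (e.1 = ccode KL cc cs (win d c)), e.2 = ccode KL cc cs (nxt m (win d c)) := by
      intro e he
      simp only [List.mem_filter, List.mem_map, decide_eq_true_eq] at he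
      obtain ⟨⟨w, hw', rfl⟩, he⟩ := he
      rw [ccode_inj hKL hcc hcs ((hTL _).1 hw').2 ((hTL _).1 hw).2 he]
    have a2 : (ccode KL cc cs (win d c), ccode KL cc cs (nxt m (win d c))) ∈
        (TL.map fun w => (ccode KL cc cs w, ccode KL cc cs (nxt m w))).filter
        fun e => decide (e.1 = ccode KL cc cs (win d c)) := by
      simp only [List.mem_filter, List.mem_map, decide_eq_true_eq]
      exact ⟨⟨_, hw, rfl⟩, trivial⟩
    generalize List.filter _ _ = l at a1 a2
    cases l with
    | nil => simp at a2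
    | cons a l => exact a1 a List.mem_cons_self
  unfold cstep
  rw [e1, e2, nxt_local hd c]
  simp only [ccode, Prod.mk.injEq, true_and]
  refine List.ext_getElem (by simp) fun j h1 h2 => ?_
  have hj : j < KL.length := by simpa using h1
  simp [List.getD_eq_getElem?_getD, hj, List.map_drop]

end

/-- A polynomial-time machine run on an input whose code is computed in polynomial time. -/
theorem pt_of_machine {α A A' : Type} [Enc α] {ea : A → List Bool} {eb : A' → List Bool}
    {f : A → A'} (hf : Nonempty (TM2ComputableInPolyTime ea eb f)) {F : α → A}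
    (hF : PT fun x => ea (F x)) : PT fun x => eb (f (F x)) := by
  classical
  obtain ⟨M⟩ := hf
  have := M.tm.kFin
  have := M.tm.ΛFin
  have := M.tm.σFin
  let B : Set (Σ k, M.tm.Γ k) := (⋃ l, syms (M.tm.m l)) ∪
    (Set.range (fun b => ⟨M.tm.k₀, M.inputAlphabet.symm b⟩) ∪
      Set.range (fun b => ⟨M.tm.k₁, M.outputAlphabet.symm b⟩))
  have hA : B.Finite := (Set.finite_iUnion (fun l => syms_finite _)).union
    ((Set.finite_range _).union (Set.finite_range _))
  obtain ⟨cs, hcs⟩ := Set.countable_iff_exists_injOn.1 hA.countable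
  obtain ⟨cc, hcc⟩ := exists_injective_nat (Option M.tm.Λ × M.tm.σ)
  let d := Finset.univ.sup (fun l => depth (M.tm.m l))
  have hd : ∀ l, depth (M.tm.m l) ≤ d := fun l =>
    Finset.le_sup (f := fun l => depth (M.tm.m l)) (Finset.mem_univ l)
  have hT := windows_finite (Λ := M.tm.Λ) (σ := M.tm.σ) hA d
  let KL : List M.tm.K := Finset.univ.toList
  have hKL : ∀ k, k ∈ KL := fun k => by simp [KL]
  let TL := hT.toFinset.toList
  have hTL : ∀ c, c ∈ TL ↔ (∀ k, (c.stk k).length ≤ d) ∧ Over B c.stk := fun c => by simp [TL]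
  let g := cstep (TL.map fun w => (ccode KL cc cs w, ccode KL cc cs (nxt M.tm.m w))) KL.length d
  have hm : ∀ l, syms (M.tm.m l) ⊆ B := fun l x hx => Or.inl (Set.mem_iUnion.2 ⟨l, hx⟩)
  let c0 : α → TM2.Cfg M.tm.Γ M.tm.Λ M.tm.σ := fun x =>
    initList M.tm (List.map M.inputAlphabet.invFun (ea (F x)))
  have hstk : ∀ x k, (((c0 x).stk k).map fun γ => cs ⟨k, γ⟩) =
      if k = M.tm.k₀ then (ea (F x)).map fun b => cs ⟨M.tm.k₀, M.inputAlphabet.symm b⟩ else [] := by
    intro x k
    by_cases hk : k = M.tm.k₀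
    · subst hk
      simp [c0, initList]
    · simp [c0, initList, hk]
  have hover0 : ∀ x, Over B (c0 x).stk := by
    intro x k γ hγ
    by_cases hk : k = M.tm.k₀
    · subst hk
      simp only [c0, initList, dif_pos] at hγ
      obtain ⟨b, -, rfl⟩ := List.mem_map.1 hγ
      exact Or.inr (Or.inl ⟨b, rfl⟩)
    · simp [c0, initList, hk] at hγ
  have hover : ∀ x n, Over B ((nxt M.tm.m)^[n] (c0 x)).stk := by
    intro x n
    induction n with
    | zero => exact hover0 x
    | succ n ih => rw [Function.iterate_succ_apply']; exact over_nxt hm ih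
  have hiter : ∀ x n, g^[n] (ccode KL cc cs (c0 x)) = ccode KL cc cs ((nxt M.tm.m)^[n] (c0 x)) := by
    intro x n
    induction n with
    | zero => rfl
    | succ n ih =>
      rw [Function.iterate_succ_apply', Function.iterate_succ_apply', ih]
      exact cstep_ccode hKL hcc hcs hd hTL (hover x n)
  have hs : PT fun x : α => ccode KL cc cs (c0 x) := by
    have h1 : PT fun x : α => (ea (F x)).map fun b => cs ⟨M.tm.k₀, M.inputAlphabet.symm b⟩ :=
      PT.map (f := fun _ b => cs ⟨M.tm.k₀, M.inputAlphabet.symm b⟩)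
        (PT.bool_cases (p := fun p : α × Bool => p.2) (by fun_prop)
          (g := fun b _ => cs ⟨M.tm.k₀, M.inputAlphabet.symm b⟩) fun b => PT.const _) hF
    simp only [ccode, hstk]
    refine PT.prodMk (PT.const (cc (some M.tm.main, M.tm.initialState))) (PT.map_const KL fun k => ?_)
    split_ifs
    · exact h1
    · exact PT.const _
  let T : α → ℕ := fun x => M.time.eval (ea (F x)).length
  have hT' : PT T := PT.eval _ hF.length
  obtain ⟨C, hC⟩ : ∃ C, (∀ q, cc q ≤ C) ∧ ∀ s ∈ B, cs s ≤ C := by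
    obtain ⟨C1, h1⟩ := (Set.finite_range cc).bddAbove
    obtain ⟨C2, h2⟩ := (hA.image cs).bddAbove
    exact ⟨C1 + C2, fun q => le_add_right (h1 ⟨q, rfl⟩), fun s hs => le_add_left (h2 ⟨s, hs, rfl⟩)⟩
  have hrun : PT fun x => g^[T x] (ccode KL cc cs (c0 x)) := by
    refine PT.iter (pt_cstep _ _ _) hT' hs
      (B := fun x => 2 * C + 1 + KL.length * (2 * (((ea (F x)).length + T x * d) * (2 * C + 1)) + 1))
      (PT.pb (by have := hF.length; fun_prop)) fun x i hi => ?_
    rw [hiter, ccode, sz_prod, sz_nat]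
    refine Nat.add_le_add (by have := hC.1 (((nxt M.tm.m)^[i] (c0 x)).l, ((nxt M.tm.m)^[i] (c0 x)).var); omega) ?_
    refine (sz_le_of_forall (B := ((ea (F x)).length + T x * d) * (2 * C + 1)) fun a ha => ?_).trans (by simp)
    obtain ⟨k, -, rfl⟩ := List.mem_map.1 ha
    refine (sz_le_of_forall (B := C) fun a ha => ?_).trans (Nat.mul_le_mul_right _ ?_)
    · obtain ⟨γ, hγ, rfl⟩ := List.mem_map.1 ha
      simpa using hC.2 _ (hover x i k γ hγ)
    · rw [List.length_map]
      refine (length_nxt_iter hd _ k i).trans (Nat.add_le_add ?_ (Nat.mul_le_mul_right _ hi))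
      have := congrArg List.length (hstk x k)
      rw [List.length_map] at this
      rw [this]
      split_ifs <;> simp
  obtain ⟨j, hj, hjk⟩ := List.getElem_of_mem (hKL M.tm.k₁)
  have hout : PT fun x => ((g^[T x] (ccode KL cc cs (c0 x))).2.getD j []).map
      fun s => decide (s = cs ⟨M.tm.k₁, M.outputAlphabet.symm true⟩) :=
    PT.map (f := fun _ s => decide (s = cs ⟨M.tm.k₁, M.outputAlphabet.symm true⟩)) (by fun_prop)
      (PT.getD hrun.snd (PT.const _) (PT.const _))
  refine PT.congr hout fun x => ?_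
  simp only [hiter]
  obtain ⟨⟨n, hn⟩, hn'⟩ := M.outputsFun (F x)
  simp only at hn'
  have h1 := nxt_iter_of_steps M.tm.m n _ _ hn
  have h3 : n ≤ T x := hn'
  obtain ⟨e, he⟩ := Nat.exists_eq_add_of_le h3
  rw [he, add_comm, Function.iterate_add_apply]
  change ((ccode KL cc cs ((nxt M.tm.m)^[e] ((nxt M.tm.m)^[n] (initList M.tm _)))).2.getD j []).map _ = _
  rw [h1, nxt_iter_halt _ rfl]
  have hne : cs ⟨M.tm.k₁, M.outputAlphabet.symm false⟩ ≠ cs ⟨M.tm.k₁, M.outputAlphabet.symm true⟩ := by
    intro h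
    have := hcs (Or.inr (Or.inr ⟨false, rfl⟩)) (Or.inr (Or.inr ⟨true, rfl⟩)) h
    simp at this
  simp only [ccode, List.getD_eq_getElem?_getD, List.getElem?_map, List.getElem?_eq_getElem hj, hjk,
    Option.map_some, Option.getD_some, haltList, dif_pos, List.map_map]
  change List.map _ (List.map M.outputAlphabet.invFun (eb (f (F x)))) = _
  rw [List.map_map]
  refine (List.map_congr_left fun b _ => ?_).trans (List.map_id _)
  cases b <;> simp [hne]

end Pool.Agent.MP_e16607_lc.S2

end

section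

namespace Pool.Agent.MP_e16607_lc.S2

open Turing Pool.Agent.MP_2e8011_lc Pool.Agent.MP_2e8011_lc.Dat

section
variable {K : Type} [DecidableEq K] {Γ : K → Type} {Λ σ : Type} (D : Dat Γ Λ σ)

theorem init_pin {u : List Bool} {P T B : ℕ} {V : ℕ → ℕ → Sym Γ Λ σ → Prop}
    (h : D.Cons u P T B V) {y : ℕ → Bool} {m : ℕ} (hmP : m ≤ P)
    (hy : ∀ r < m, V 0 (u.length + 3 * r + 1) (D.s0 (some (y r)))) :
    ∃ w : List Bool, w.length ≤ P ∧ (∀ r < m, w[r]? = some (y r)) ∧
      ∀ i < B, V 0 i (D.s0 (u ++ enc w)[i]?) := by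
  classical
  have hex : ∃ r, m ≤ r ∧ (P ≤ r ∨ V 0 (u.length + 3 * r + 1) (D.s0 none)) :=
    ⟨P, hmP, Or.inl le_rfl⟩
  have hm : Nat.find hex ≤ P := Nat.find_min' hex ⟨hmP, Or.inl le_rfl⟩
  have hm' : m ≤ Nat.find hex := (Nat.find_spec hex).1
  have hb : ∀ r, ∃ b, (r < m → b = y r) ∧
      (r < Nat.find hex → V 0 (u.length + 3 * r + 1) (D.s0 (some b))) := by
    intro r
    by_cases hrm : r < m
    · exact ⟨y r, fun _ => rfl, fun _ => hy r hrm⟩
    by_cases hr : r < Nat.find hex
    · have := Nat.find_min hex hr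
      rw [not_and, not_or] at this
      obtain ⟨b, hb⟩ := (h.hD₁ r (by omega)).resolve_left (this (by omega)).2
      exact ⟨b, fun h => absurd h hrm, fun _ => hb⟩
    · exact ⟨false, fun h => absurd h hrm, fun h => absurd h hr⟩
  choose b hby hb using hb
  have hN : ∀ r, Nat.find hex ≤ r → r < P → V 0 (u.length + 3 * r + 1) (D.s0 none) := by
    intro r hr
    induction r, hr using Nat.le_induction with
    | base => intro hr; exact (Nat.find_spec hex).2.resolve_left (by omega)
    | succ r _ ih => intro hr; exact (h.hD₃ r (by omega) (ih (by omega))).2.2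
  refine ⟨(List.range (Nat.find hex)).map b, by simpa using hm, fun r hr => ?_, fun i hi => ?_⟩
  · rw [List.getElem?_map, List.getElem?_range (by omega), Option.map_some, hby r hr]
  by_cases h1 : i < u.length
  · have := h.hC i h1
    rw [List.getElem?_append_left h1]
    simpa [List.getD_eq_getElem?_getD, h1] using this
  obtain ⟨j, rfl⟩ := Nat.exists_eq_add_of_le (not_lt.1 h1)
  rw [List.getElem?_append_right (Nat.le_add_right _ _), Nat.add_sub_cancel_left]
  by_cases h2 : 3 * P ≤ j
  · obtain ⟨j', rfl⟩ := Nat.exists_eq_add_of_le h2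
    rw [List.getElem?_eq_none (by rw [length_enc_bits]; simp; omega), ← add_assoc]
    exact h.hE j' (by omega)
  have hj : j = 3 * (j / 3) + j % 3 := (Nat.div_add_mod j 3).symm
  have hr : j / 3 < P := by omega
  have he : j % 3 < 3 := Nat.mod_lt _ (by omega)
  generalize j / 3 = r at hj hr
  generalize j % 3 = e at hj he
  subst hj
  rw [enc_bits_getElem? _ _ _ he, ← add_assoc]
  by_cases h3 : r < Nat.find hex
  · have h4 := hb r h3
    have h5 := h.hD₂ r hr _ h4
    simp only [List.getElem?_map, List.getElem?_range h3, Option.map_some]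
    interval_cases e
    · exact h5.1
    · exact h4
    · exact h5.2
  · have h4 := hN r (not_lt.1 h3) hr
    have h5 := h.hD₃ r hr h4
    rw [List.getElem?_eq_none (by rw [List.length_map, List.length_range]; exact not_lt.1 h3)]
    interval_cases e
    · exact h5.1
    · exact h4
    · exact h5.2.1

theorem sound_of_init {u : List Bool} {P T B : ℕ} {V : ℕ → ℕ → Sym Γ Λ σ → Prop}
    (h : D.Cons u P T B V) (hB : D.d * T < B) {s : List Bool}
    (h0 : ∀ i < B, V 0 i (D.s0 s[i]?)) :
    (((nxt D.m)^[T] (D.c0 s)).stk D.k₁)[0]? ≠ some D.bad := by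
  intro hbad
  have key : ∀ t ≤ T, V t 0 (ctl ((nxt D.m)^[t] (D.c0 s))) ∧
      ∀ k i, i + D.d * t < B → V t i (cell ((nxt D.m)^[t] (D.c0 s)) k i) := by
    intro t
    induction t with
    | zero =>
      intro _
      refine ⟨h.hA, fun k i hi => ?_⟩
      simp only [Function.iterate_zero, id]
      by_cases hk : k = D.k₀
      · subst hk
        rw [cell_c0]
        exact h0 i (by omega)
      · rw [D.cell_c0_ne _ hk]
        exact h.hB k hk i (by omega)
    | succ t ih =>
      intro ht
      rw [Function.iterate_succ_apply']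
      exact D.sound_step h hB ht (D.over_iter _ t) (ih (by omega)).1 (ih (by omega)).2
  have := (key T le_rfl).2 D.k₁ 0 (by omega)
  rw [cell, hbad] at this
  exact h.hH this

theorem sat_pin_iff (hinj : Function.Injective D.i₀) (u : List Bool) {P T B : ℕ}
    (hB : D.d * T < B) {y : ℕ → Bool} {m : ℕ} (hmP : m ≤ P) :
    (∃ a, SatBy a (D.formula u P T B) ∧
      ∀ r < m, a (D.var 0 (u.length + 3 * r + 1) (D.s0 (some (y r)))) = true) ↔
    ∃ w : List Bool, w.length ≤ P ∧ (∀ r < m, w[r]? = some (y r)) ∧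
      (((nxt D.m)^[T] (D.c0 (u ++ enc w))).stk D.k₁)[0]? ≠ some D.bad := by
  classical
  constructor
  · rintro ⟨a, ha, hy⟩
    have h := (D.satBy_formula a u P T B).1 ha
    obtain ⟨w, h1, h2, h3⟩ := init_pin D h hmP hy
    exact ⟨w, h1, h2, sound_of_init D h hB h3⟩
  · rintro ⟨w, hw, hy, hbad⟩
    let a : ℕ → Bool := fun n => decide (∃ s, Good D.A s ∧
      D.code s = (Nat.unpair (Nat.unpair n).2).2 ∧
      Holds ((nxt D.m)^[(Nat.unpair n).1] (D.c0 (u ++ enc w))) (Nat.unpair (Nat.unpair n).2).1 s)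
    have hV : ∀ t i s, Good D.A s → (a (D.var t i s) = true ↔
        Holds ((nxt D.m)^[t] (D.c0 (u ++ enc w))) i s) := by
      intro t i s hs
      simp only [a, var, Nat.unpair_pair, decide_eq_true_eq]
      constructor
      · rintro ⟨s', hs', he, hh⟩
        rwa [D.hcode hs' hs he] at hh
      · intro hh
        exact ⟨s, hs, rfl, hh⟩
    refine ⟨a, (D.satBy_formula _ u P T B).2 (D.complete hinj hw hbad hV), fun r hr => ?_⟩
    rw [hV _ _ _ (D.good_s0 _)]
    simp only [Holds, s0, c0, Function.iterate_zero, id, Function.update_self, List.getElem?_map]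
    rw [add_assoc, List.getElem?_append_right (Nat.le_add_right _ _), Nat.add_sub_cancel_left,
      enc_bits_getElem? _ _ _ (by omega), hy r hr]
    rfl

end

/-- Cook–Levin with access to the variables of the witness bits. -/
theorem pinned {R : List Bool × List Bool → Bool} (hR : PT R) (p : Polynomial ℕ) :
    ∃ (f : List Bool → CNF) (v : Bool → List Bool → ℕ → ℕ), PT f ∧
      (∀ b, PT fun q : List Bool × ℕ => v b q.1 q.2) ∧
      ∀ (x : List Bool) (y : ℕ → Bool) (m : ℕ), m ≤ p.eval x.length →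
        ((∃ a, SatBy a (f x) ∧ ∀ r < m, a (v (y r) x r) = true) ↔
          ∃ w : List Bool, w.length ≤ p.eval x.length ∧ (∀ r < m, w[r]? = some (y r)) ∧
            R (x, w) = true) := by
  obtain ⟨M⟩ := hR.tm2
  obtain ⟨D, hm, hk₀, hk₁, hmain, hv, hi, hbad⟩ :=
    exists_dat M.tm M.inputAlphabet.symm (M.outputAlphabet.symm false)
  obtain ⟨m, k₀, k₁, main, v₀, i₀, bad, d, hd, A, hA, hi', hbad', KL, hKL, TL, hTL, OL, hOL, code,
    hcode⟩ := D
  simp only at hm hk₀ hk₁ hmain hv hi hbad
  subst hm hk₀ hk₁ hmain hv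
  obtain rfl := eq_of_heq hi
  obtain rfl := eq_of_heq hbad
  set D : Dat M.tm.Γ M.tm.Λ M.tm.σ := ⟨M.tm.m, M.tm.k₀, M.tm.k₁, M.tm.main, M.tm.initialState,
    M.inputAlphabet.symm, M.outputAlphabet.symm false, d, hd, A, hA, hi', hbad', KL, hKL, TL, hTL,
    OL, hOL, code, hcode⟩ with hD
  let u : List Bool → List Bool := fun x => enc (x, ([] : List Bool))
  let P : List Bool → ℕ := fun x => p.eval x.length
  let T : List Bool → ℕ := fun x => M.time.eval ((u x).length + 3 * P x)
  have hu : PT u := by fun_prop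
  have hP : PT P := by fun_prop
  have hT : PT T := by fun_prop
  refine ⟨fun x => D.formula (u x) (P x) (T x) (d * T x + 1),
    fun b x r => D.var 0 ((u x).length + 3 * r + 1) (D.s0 (some b)),
    D.pt_formula hu hP hT (by fun_prop), fun b => D.pt_var (PT.const 0) (by fun_prop) _,
    fun x y n hn => ?_⟩
  rw [sat_pin_iff D M.inputAlphabet.symm.injective _ (Nat.lt_succ_self _) hn]
  refine exists_congr fun w => and_congr_right fun hw => and_congr_right fun _ => ?_
  have hxw : u x ++ enc w = enc (x, w) := by simp [u, enc_prod, enc_nil]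
  obtain ⟨⟨n, hn⟩, hn'⟩ := M.outputsFun (x, w)
  simp only at hn'
  have h1 := nxt_iter_of_steps M.tm.m n _ _ hn
  have h2 : D.c0 (u x ++ enc w) = initList M.tm (List.map M.inputAlphabet.invFun (enc (x, w))) := by
    rw [hxw]
    simp only [Dat.c0, initList, hD]
    congr 1
    funext k
    by_cases hk : k = M.tm.k₀
    · subst hk
      rw [dif_pos rfl]
      exact Function.update_self (β := fun k => List (M.tm.Γ k)) ..
    · rw [dif_neg hk]
      exact Function.update_of_ne (β := fun k => List (M.tm.Γ k)) hk _ _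
  have h3 : n ≤ T x := by
    refine hn'.trans (eval_mono _ ?_)
    rw [← hxw, List.length_append, length_enc_bits]
    have : w.length ≤ P x := hw
    omega
  obtain ⟨e, he⟩ := Nat.exists_eq_add_of_le h3
  rw [h2, he, add_comm, Function.iterate_add_apply]
  change (((nxt M.tm.m)^[e] ((nxt M.tm.m)^[n] _)).stk M.tm.k₁)[0]? ≠
    some (M.outputAlphabet.symm false) ↔ _
  rw [h1, nxt_iter_halt _ rfl]
  simp only [haltList, enc_bool]
  cases R (x, w) <;> simp

theorem agree3 : Agree (List Bool × List Bool × List Bool) :=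
  agree_prod (agree_list agree_bool) (agree_prod (agree_list agree_bool) (agree_list agree_bool))

theorem pt_of_poly3 {R : List Bool × List Bool × List Bool → Bool} (hR : N68a2faeb.IsPolyTime R) :
    PT R := by
  unfold N68a2faeb.IsPolyTime N68a2faeb.IsPolyTimeWithEncoding at hR
  rw [agree3.encode_eq, agree_bool.encode_eq] at hR
  exact ((pt_of_machine hR (PT.enc PT.id)).headD (PT.const false)).congr fun a => rfl

lemma map_getD_eq (l : List Bool) {m : ℕ} (h : l.length ≤ m) :
    (List.range m).map (fun r => l.getD r false) = l ++ List.replicate (m - l.length) false := by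
  refine List.ext_getElem (by simp; omega) fun i h1 h2 => ?_
  by_cases hi : i < l.length
  · simp [List.getElem_append_left hi, List.getD_eq_getElem?_getD, hi]
  · rw [List.getElem_append_right (not_lt.1 hi)]
    simp [List.getD_eq_getElem?_getD, List.getElem?_eq_none (not_lt.1 hi)]

lemma take_eq {w : List Bool} {y : ℕ → Bool} {m : ℕ} (h : ∀ r < m, w[r]? = some (y r)) :
    w.take m = (List.range m).map y := by
  refine List.ext_getElem? fun i => ?_
  by_cases hi : i < m
  · rw [List.getElem?_take_of_lt hi, h i hi, List.getElem?_map, List.getElem?_range hi]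
    rfl
  · rw [List.getElem?_eq_none (by simp; omega), List.getElem?_eq_none (by simp; omega)]

theorem hard {cn : Bool} {L : List Bool → Bool} (hL : ∀ x, L x = true ↔ Lang cn x)
    {A : List Bool → Bool} (hA : A ∈ SigmaTwoP) : N793a5b8e.ManyOneReducible A L := by
  obtain ⟨p, R, hR, hA⟩ := hA
  have hR := pt_of_poly3 hR
  let R' : List Bool × List Bool → Bool := fun q =>
    !R (q.1, (split (q.2.take (2 * p.eval q.1.length + 1))).1.take (p.eval q.1.length),
      q.2.drop (2 * p.eval q.1.length + 1))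
  have hR' : PT R' := by
    have h1 : PT fun q : List Bool × List Bool =>
        (split (q.2.take (2 * p.eval q.1.length + 1))).1 := pt_split_fst (by fun_prop)
    exact (hR.comp (f := fun q : List Bool × List Bool =>
      (q.1, (split (q.2.take (2 * p.eval q.1.length + 1))).1.take (p.eval q.1.length),
        q.2.drop (2 * p.eval q.1.length + 1))) (by fun_prop)).not
  obtain ⟨f, v, hf, hv, h⟩ := pinned hR' (3 * p + 1)
  let m : List Bool → ℕ := fun x => 2 * p.eval x.length + 1
  let vs : List Bool → List ℕ := fun x => (List.range (2 * m x)).map fun j =>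
    if j % 2 = 1 then v true x (j / 2) else v false x (j / 2)
  have hm : PT m := by fun_prop
  have hvs : PT vs := by
    refine PT.map (PT.ite (by fun_prop) ?_ ?_) (by fun_prop)
    · exact (hv true).comp (f := fun q : List Bool × ℕ => (q.1, q.2 / 2)) (by fun_prop)
    · exact (hv false).comp (f := fun q : List Bool × ℕ => (q.1, q.2 / 2)) (by fun_prop)
  refine ⟨fun x => red (f x) (vs x) (m x), (pt_red hf hvs hm).isPolyTime_bits, fun x => ?_⟩
  rw [Bool.eq_iff_iff, hL, lang_red cn _ (by simp [vs]), hA]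
  have he : (3 * p + 1).eval x.length = 3 * p.eval x.length + 1 := by simp
  have key : ∀ y, PSat (f x) (vs x) (m x) y ↔ ∃ w : List Bool, w.length ≤ 3 * p.eval x.length + 1 ∧
      (∀ r < m x, w[r]? = some (y r)) ∧ R' (x, w) = true := by
    intro y
    rw [← he, ← h x y (m x) (by rw [he]; simp only [m]; omega)]
    refine exists_congr fun s => and_congr Iff.rfl (forall_congr' fun i => imp_congr_right fun hi => ?_)
    have h1 := cond_le (y i)
    rw [List.getD_eq_getElem _ _ (by simp only [vs, List.length_map, List.length_range]; omega)]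
    simp only [vs, List.getElem_map, List.getElem_range]
    cases y i
    · simp
    · simp only [cond_true]
      rw [if_pos (by omega), show (2 * i + 1) / 2 = i by omega]
  simp only [key]
  constructor
  · rintro ⟨y, hy, hz⟩
    refine ⟨fun r => (delim y).getD r false, ?_⟩
    rintro ⟨w, h1, h2, h3⟩
    have h4 := take_eq h2
    rw [map_getD_eq _ (by simp only [length_delim, m]; omega)] at h4
    simp only [R', m] at h3 h4
    rw [h4, split_delim, List.take_of_length_le hy, hz _ (by simp; omega)] at h3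
    simp at h3
  · rintro ⟨y, hy⟩
    refine ⟨(split ((List.range (m x)).map y)).1.take (p.eval x.length), by simp, fun z hz => ?_⟩
    by_contra h1
    refine hy ⟨(List.range (m x)).map y ++ z, by simp [m]; omega, fun r hr => ?_, ?_⟩
    · rw [List.getElem?_append_left (by simpa using hr), List.getElem?_map, List.getElem?_range hr]
      rfl
    · simp only [R']
      rw [List.take_left' (by simp [m]), List.drop_left' (by simp [m])]
      simpa using h1

theorem mem {cn : Bool} {L : List Bool → Bool} (hL : ∀ x, L x = true ↔ Lang cn x) :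
    L ∈ SigmaTwoP := by
  let q : Polynomial ℕ := 4 * (Polynomial.X + 1) * (Polynomial.X + 1) * (Polynomial.X + 1)
  have hq : ∀ m, q.eval m = 4 * (m + 1) * (m + 1) * (m + 1) := fun m => by simp [q]
  refine ⟨q, fun t => decide (Outer t.1 t.2.1 (t.1.length + 1)) &&
    !decide (Viol cn t.2.1 t.2.2 (t.1.length + 1)
      (min (val (split t.1).2) (rd t.2.1 (t.1.length + 1) 0 0 0))),
    PT.isPolyTime agree3 agree_bool ?_, fun x => ?_⟩
  · have h1 : PT fun t : List Bool × List Bool × List Bool => t.1 := by fun_prop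
    have h2 : PT fun t : List Bool × List Bool × List Bool => t.2.1 := by fun_prop
    have h3 : PT fun t : List Bool × List Bool × List Bool => t.1.length + 1 := h1.length.succ
    exact PT.and (pt_Outer h1 h2 h3) (pt_Viol cn h2 (by fun_prop) h3
      (pt_min_val (pt_split_snd h1) (pt_rd h2 h3 (PT.const _) (PT.const _) (PT.const _)))).not
  · rw [hL, lang_iff_outer, hq]
    refine exists_congr fun w => and_congr_right fun _ => ?_
    simp only [Bool.and_eq_true, decide_eq_true_eq, Bool.not_eq_true', decide_eq_false_iff_not]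
    constructor
    · rintro ⟨h3, h4⟩ z _
      exact ⟨h3, fun h5 => not_inner_of_viol h5 h4⟩
    · intro h3
      have h4 := (h3 [] (by simp)).1
      refine ⟨h4, ?_⟩
      by_contra h5
      obtain ⟨z, hz, h6⟩ := viol_of_not_inner h4.lt h5
      exact (h3 z hz.le).2 h6

theorem complete {cn : Bool} {L : List Bool → Bool} (hL : ∀ x, L x = true ↔ Lang cn x) :
    N793a5b8e.IsCompleteFor SigmaTwoP L :=
  ⟨mem hL, fun _ hA => hard hL hA⟩

end Pool.Agent.MP_e16607_lc.S2

end
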